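import Pool.Agent.Lib.MP_d81877_alZF.Form

/-!
# MP_d81877_al, part D: orthogonality in the plain model (L4 and L5)

The operators `e`, `D`, `h` on the sites of `V`, the transforms `T i j`, the pairing `B0 V`, and
the orthogonality of all transforms of the vacuum to the common kernel of `e`, `D` and `h`.
-/

namespace D81877ZF

open Finset

set_option linter.unusedSectionVars false

section Ops

variable {ι : Type*} [DecidableEq ι] {K : Type*} [Field K]

/-- the sum of the derivatives over the sites of `V` -/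
def e (V : Finset ι) : Module.End K (Z ι K) := ∑ x ∈ V, d x

/-- `D = ∑ f_x d_x` -/
def D (V : Finset ι) : Module.End K (Z ι K) := ∑ x ∈ V, f x * d x

/-- `h = ∑ (g_x + f_x g_x d_x)` -/
def h (V : Finset ι) : Module.End K (Z ι K) := ∑ x ∈ V, (g x + f x * g x * d x)

/-- `D' = ∑ θ_x g_x` -/
def D' (V : Finset ι) : Module.End K (Z ι K) := ∑ x ∈ V, th x * g x

/-- the transform `(f_i + f_j)(d_i + d_j) + f_i f_j d_i d_j` -/
def T (i j : ι) : Module.End K (Z ι K) :=
  (f i + f j) * (d i + d j) + f i * f j * (d i * d j)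

/-- an operator commuting with all `f_x` and `d_x` commutes with `T` -/
theorem T_commute_of {R : Module.End K (Z ι K)} {i j : ι} (h1 : Commute (f i) R)
    (h2 : Commute (f j) R) (h3 : Commute (d i) R) (h4 : Commute (d j) R) :
    Commute (T i j) R := by
  unfold T
  exact ((h1.add_left h2).mul_left (h3.add_left h4)).add_left
    ((h1.mul_left h2).mul_left (h3.mul_left h4))

theorem f_T (x i j : ι) : Commute (f x : Module.End K (Z ι K)) (T i j) :=
  (T_commute_of (f_comm _ _) (f_comm _ _) (f_d_comm _ _).symm (f_d_comm _ _).symm).symm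

theorem d_T (x i j : ι) : Commute (d x : Module.End K (Z ι K)) (T i j) :=
  (T_commute_of (f_d_comm _ _) (f_d_comm _ _) (d_comm _ _) (d_comm _ _)).symm

theorem T_T (x y i j : ι) : Commute (T x y : Module.End K (Z ι K)) (T i j) :=
  T_commute_of (f_T _ _ _) (f_T _ _ _) (d_T _ _ _) (d_T _ _ _)

theorem T_e (V : Finset ι) (i j : ι) : Commute (T i j : Module.End K (Z ι K)) (e V) := by
  unfold e
  exact Commute.sum_right _ _ _ fun x _ => (d_T x i j).symm

theorem T_D (V : Finset ι) (i j : ι) : Commute (T i j : Module.End K (Z ι K)) (D V) := by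
  unfold D
  exact Commute.sum_right _ _ _ fun x _ => ((f_T x i j).mul_left (d_T x i j)).symm

theorem d_D (V : Finset ι) (x : ι) : Commute (d x : Module.End K (Z ι K)) (D V) := by
  unfold D
  exact Commute.sum_right _ _ _ fun y _ => (f_d_comm y x).symm.mul_right (d_comm x y)

theorem f_D (V : Finset ι) (x : ι) : Commute (f x : Module.End K (Z ι K)) (D V) := by
  unfold D
  exact Commute.sum_right _ _ _ fun y _ => (f_comm x y).mul_right (f_d_comm x y)

theorem e_D (V : Finset ι) : Commute (e V : Module.End K (Z ι K)) (D V) := by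
  unfold e
  exact Commute.sum_left _ _ _ fun x _ => d_D V x

end Ops

section CharTwo

variable {ι : Type*} [DecidableEq ι] {K : Type*} [Field K] [CharP K 2]

theorem Z_add_self (u : Z ι K) : u + u = 0 := by
  funext A B
  exact CharTwo.add_self_eq_zero _

theorem end_add_self (a : Module.End K (Z ι K)) : a + a = 0 := by
  ext v A B
  exact CharTwo.add_self_eq_zero _

/-- the algebra behind the next statement -/
theorem ring_aux {R : Type*} [Ring R] (h2 : ∀ a : R, a + a = 0) {f d g : R}
    (hff : f * f = 0) (hgf : g * f + f * g = 1) (hdf : d * f = f * d) :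
    (g + f * g * d) * f = f * (g + f * g * d) + (1 + f * d) := by
  have e2 : g * f = 1 + f * g := by
    have : g * f + (f * g + f * g) = 1 + f * g := by rw [← hgf]; abel
    rwa [h2, add_zero] at this
  calc (g + f * g * d) * f = g * f + f * g * (d * f) := by noncomm_ring
    _ = g * f + f * (g * f) * d := by rw [hdf]; noncomm_ring
    _ = g * f + (f + f * f * g) * d := by rw [e2]; noncomm_ring
    _ = (1 + f * g) + f * d := by rw [hff, e2]; noncomm_ring
    _ = f * g + f * f * g * d + (1 + f * d) := by rw [hff]; noncomm_ring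
    _ = f * (g + f * g * d) + (1 + f * d) := by noncomm_ring

/-- `[f_i, h] = 1 + f_i d_i` -/
theorem h_f {V : Finset ι} {i : ι} (hi : i ∈ V) :
    (h V : Module.End K (Z ι K)) * f i = f i * h V + (1 + f i * d i) := by
  unfold h
  rw [← Finset.add_sum_erase V _ hi, add_mul, mul_add,
    ring_aux end_add_self (f_sq i) (g_f_same i) (f_d_comm i i).eq.symm]
  have h3 : (∑ x ∈ V.erase i, (g x + f x * g x * d x)) * (f i : Module.End K (Z ι K))
      = f i * ∑ x ∈ V.erase i, (g x + f x * g x * d x) := by
    apply (Commute.sum_left _ _ _ fun x hx => ?_ : Commute _ _)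
    have hxi : x ≠ i := (mem_erase.mp hx).1
    have c1 : Commute (g x : Module.End K (Z ι K)) (f i) := g_f_comm hxi
    exact c1.add_left (((f_comm x i).mul_left c1).mul_left (f_d_comm i x).symm)
  rw [h3]
  abel

omit [CharP K 2] in
theorem h_d (V : Finset ι) (i : ι) : Commute (h V : Module.End K (Z ι K)) (d i) := by
  unfold h
  refine Commute.sum_left _ _ _ fun x _ => ?_
  have c1 : Commute (g x : Module.End K (Z ι K)) (d i) := g_d_comm x i
  exact c1.add_left (((f_d_comm x i).mul_left c1).mul_left (d_comm x i))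

theorem ring_aux2 {R : Type*} [Ring R] (h2 : ∀ a : R, a + a = 0) {f f' d d' h : R}
    (e1 : h * f = f * h + (1 + f * d)) (e1' : h * f' = f' * h + (1 + f' * d'))
    (e2 : h * d = d * h) (e2' : h * d' = d' * h) (q : d * d = 0) (q' : d' * d' = 0)
    (c : d * d' = d' * d) (c1 : d * f' = f' * d) :
    h * ((f + f') * (d + d') + f * f' * (d * d'))
      = ((f + f') * (d + d') + f * f' * (d * d')) * h := by
  have a1 : h * (f + f') = (f + f') * h + (f * d + f' * d') := by
    calc h * (f + f') = h * f + h * f' := by noncomm_ring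
      _ = (f + f') * h + (f * d + f' * d') + (1 + 1) := by rw [e1, e1']; noncomm_ring
      _ = _ := by rw [h2, add_zero]
  have a2 : h * (d + d') = (d + d') * h := by rw [mul_add, e2, e2', add_mul]
  have a3 : h * (d * d') = (d * d') * h := by
    rw [← mul_assoc, e2, mul_assoc, e2', mul_assoc]
  have a4 : (f * d + f' * d') * (d + d') = f * (d * d') + f' * (d * d') := by
    calc (f * d + f' * d') * (d + d') = f * (d * d) + f * (d * d') + f' * (d' * d)
          + f' * (d' * d') := by noncomm_ring
      _ = _ := by rw [q, q', ← c]; noncomm_ring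
  have a5 : h * (f * f') = f * f' * h + (f + f') + f * (f' * d') + f * (d * f') := by
    calc h * (f * f') = h * f * f' := by noncomm_ring
      _ = f * (h * f') + (f' + f * (d * f')) := by rw [e1]; noncomm_ring
      _ = f * f' * h + (f + f') + f * (f' * d') + f * (d * f') := by rw [e1']; noncomm_ring
  have a6 : (f * (f' * d')) * (d * d') = 0 := by
    calc (f * (f' * d')) * (d * d') = f * f' * ((d' * d) * d') := by noncomm_ring
      _ = f * f' * (d * (d' * d')) := by rw [← c]; noncomm_ring
      _ = 0 := by rw [q']; noncomm_ring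
  have a7 : (f * (d * f')) * (d * d') = 0 := by
    calc (f * (d * f')) * (d * d') = f * (f' * d) * (d * d') := by rw [c1]
      _ = f * f' * ((d * d) * d') := by noncomm_ring
      _ = 0 := by rw [q]; noncomm_ring
  calc h * ((f + f') * (d + d') + f * f' * (d * d'))
      = (h * (f + f')) * (d + d') + h * (f * f') * (d * d') := by noncomm_ring
    _ = (f + f') * (h * (d + d')) + (f * d + f' * d') * (d + d')
        + (f * f' * (h * (d * d')) + (f + f') * (d * d') + (f * (f' * d')) * (d * d')
          + (f * (d * f')) * (d * d')) := by rw [a1, a5]; noncomm_ring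
    _ = ((f + f') * (d + d') + f * f' * (d * d')) * h
        + ((f * (d * d') + f' * (d * d')) + (f * (d * d') + f' * (d * d'))) := by
        rw [a2, a4, a3, a6, a7]; noncomm_ring
    _ = _ := by rw [h2, add_zero]

/-- the transforms commute with `h` -/
theorem T_h {V : Finset ι} {i j : ι} (hi : i ∈ V) (hj : j ∈ V) :
    Commute (T i j : Module.End K (Z ι K)) (h V) := by
  unfold T
  exact (ring_aux2 end_add_self (h_f hi) (h_f hj) (h_d V i).eq (h_d V j).eq (d_sq i)
    (d_sq j) (d_comm i j).eq (f_d_comm j i).eq.symm).symm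

end CharTwo

section Pairing

variable {ι : Type*} [DecidableEq ι] {K : Type*} [Field K]

/-- the pairing on the sites of `V`: `⟨1,1⟩ = ⟨θf, θf⟩ = ⟨θ, f⟩ = ⟨f, θ⟩ = 1` -/
def B0 (V : Finset ι) (u v : Z ι K) : K :=
  ∑ A ∈ V.powerset, ∑ B ∈ V.powerset, u A B * v B A

theorem B0_comm (V : Finset ι) (u v : Z ι K) : B0 V u v = B0 V v u := by
  unfold B0
  rw [Finset.sum_comm]
  exact Finset.sum_congr rfl fun A _ => Finset.sum_congr rfl fun B _ => mul_comm _ _

theorem B0_add_left (V : Finset ι) (u u' v : Z ι K) :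
    B0 V (u + u') v = B0 V u v + B0 V u' v := by
  simp only [B0, ← Finset.sum_add_distrib, Pi.add_apply, add_mul]

theorem B0_add_right (V : Finset ι) (u v v' : Z ι K) :
    B0 V u (v + v') = B0 V u v + B0 V u v' := by
  rw [B0_comm, B0_add_left, B0_comm V v, B0_comm V v']

theorem B0_zero_left (V : Finset ι) (v : Z ι K) : B0 V 0 v = 0 := by
  simp [B0]

theorem B0_zero_right (V : Finset ι) (v : Z ι K) : B0 V v 0 = 0 := by
  rw [B0_comm, B0_zero_left]

theorem B0_smul_left (V : Finset ι) (c : K) (u v : Z ι K) :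
    B0 V (c • u) v = c * B0 V u v := by
  simp only [B0, Finset.mul_sum, Pi.smul_apply, smul_eq_mul, mul_assoc]

theorem B0_sum_left {α : Type*} (V : Finset ι) (s : Finset α) (u : α → Z ι K) (v : Z ι K) :
    B0 V (∑ a ∈ s, u a) v = ∑ a ∈ s, B0 V (u a) v := by
  classical
  induction s using Finset.induction_on with
  | empty => simp [B0_zero_left]
  | insert a s ha ih => rw [sum_insert ha, sum_insert ha, B0_add_left, ih]

theorem B0_sum_right {α : Type*} (V : Finset ι) (s : Finset α) (u : α → Z ι K) (v : Z ι K) :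
    B0 V v (∑ a ∈ s, u a) = ∑ a ∈ s, B0 V v (u a) := by
  rw [B0_comm, B0_sum_left]
  exact Finset.sum_congr rfl fun a _ => B0_comm _ _ _

/-- adding or removing a site -/
theorem sum_shift {V : Finset ι} {x : ι} (hx : x ∈ V) (F : Finset ι → Finset ι → K) :
    ∑ B ∈ V.powerset, (if x ∈ B then F (B.erase x) B else 0)
      = ∑ B ∈ V.powerset, (if x ∈ B then 0 else F B (insert x B)) := by
  have e : ∀ G : Finset ι → K, ∑ B ∈ V.powerset, (if x ∈ B then 0 else G B)
      = ∑ B ∈ V.powerset, (if x ∉ B then G B else 0) := fun G =>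
    Finset.sum_congr rfl fun B _ => by by_cases h : x ∈ B <;> simp [h]
  rw [e, ← Finset.sum_filter, ← Finset.sum_filter]
  refine Finset.sum_bij' (fun B _ => B.erase x) (fun B _ => insert x B) ?_ ?_ ?_ ?_ ?_
  · intro B hB
    simp only [mem_filter, mem_powerset] at hB ⊢
    exact ⟨(erase_subset _ _).trans hB.1, notMem_erase _ _⟩
  · intro B hB
    simp only [mem_filter, mem_powerset] at hB ⊢
    exact ⟨insert_subset hx hB.1, mem_insert_self _ _⟩
  · intro B hB
    exact insert_erase (mem_filter.mp hB).2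
  · intro B hB
    exact erase_insert (mem_filter.mp hB).2
  · intro B hB
    rw [insert_erase (mem_filter.mp hB).2]

/-- the adjoint of the multiplication by `f_x` is `d_x` -/
theorem B0_f {V : Finset ι} {x : ι} (hx : x ∈ V) (u v : Z ι K) :
    B0 V (f x u) v = B0 V u (d x v) := by
  unfold B0
  refine Finset.sum_congr rfl fun A _ => ?_
  have h1 := sum_shift hx (fun B B' => u A B * v B' A)
  simp only [f_apply, d_apply, ite_mul, zero_mul, mul_ite, mul_zero]
  exact h1

theorem B0_d {V : Finset ι} {x : ι} (hx : x ∈ V) (u v : Z ι K) :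
    B0 V (d x u) v = B0 V u (f x v) := by
  rw [B0_comm, ← B0_f hx, B0_comm]

/-- the adjoint of the multiplication by `θ_x` is `g_x` -/
theorem B0_g {V : Finset ι} {x : ι} (hx : x ∈ V) (u v : Z ι K) :
    B0 V (g x u) v = B0 V u (th x v) := by
  unfold B0
  refine Finset.sum_congr rfl fun A _ => ?_
  have h1 := sum_shift hx (fun B B' => u A B' * v B A)
  simp only [g_apply, th_apply, ite_mul, zero_mul, mul_ite, mul_zero]
  exact h1.symm

theorem B0_th {V : Finset ι} {x : ι} (hx : x ∈ V) (u v : Z ι K) :
    B0 V (th x u) v = B0 V u (g x v) := by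
  rw [B0_comm, ← B0_g hx, B0_comm]

/-- self-adjointness of the transforms -/
theorem B0_T {V : Finset ι} {i j : ι} (hi : i ∈ V) (hj : j ∈ V) (u v : Z ι K) :
    B0 V (T i j u) v = B0 V u (T i j v) := by
  simp only [T, LinearMap.add_apply, Module.End.mul_apply, map_add, B0_add_left, B0_add_right,
    B0_f hi, B0_f hj, B0_d hi, B0_d hj]
  have h1 : f j (f i (d j (d i v))) = f i (f j (d i (d j v))) := by
    have e1 := LinearMap.congr_fun (d_comm (K := K) j i).eq v
    have e2 := LinearMap.congr_fun (f_comm (K := K) j i).eq (d i (d j v))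
    rw [Module.End.mul_apply, Module.End.mul_apply] at e1 e2
    rw [e1, e2]
  rw [h1]
  ring

/-- `D` is self-adjoint -/
theorem B0_D (V : Finset ι) (u v : Z ι K) : B0 V (D V u) v = B0 V u (D V v) := by
  simp only [D, LinearMap.sum_apply, B0_sum_left, B0_sum_right]
  refine Finset.sum_congr rfl fun x hx => ?_
  rw [Module.End.mul_apply, B0_f hx, B0_d hx, ← Module.End.mul_apply, (f_d_comm x x).eq]

/-- the operators for which the orthogonality argument works: they commute with `e`, `D`, `h`
and are self-adjoint -/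
structure Good (V : Finset ι) (R : Module.End K (Z ι K)) : Prop where
  ce : Commute R (e V)
  cD : Commute R (D V)
  ch : Commute R (h V)
  sa : ∀ u v : Z ι K, B0 V (R u) v = B0 V u (R v)

theorem Good.one (V : Finset ι) : Good V (1 : Module.End K (Z ι K)) where
  ce := Commute.one_left _
  cD := Commute.one_left _
  ch := Commute.one_left _
  sa _ _ := rfl

theorem Good.zero (V : Finset ι) : Good V (0 : Module.End K (Z ι K)) where
  ce := Commute.zero_left _
  cD := Commute.zero_left _
  ch := Commute.zero_left _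
  sa u v := by
    rw [LinearMap.zero_apply, LinearMap.zero_apply, B0_zero_left, B0_zero_right]

theorem Good.add {V : Finset ι} {R R' : Module.End K (Z ι K)} (h : Good V R) (h' : Good V R') :
    Good V (R + R') where
  ce := h.ce.add_left h'.ce
  cD := h.cD.add_left h'.cD
  ch := h.ch.add_left h'.ch
  sa u v := by
    rw [LinearMap.add_apply, LinearMap.add_apply, B0_add_left, B0_add_right, h.sa, h'.sa]

theorem Good.sum {α : Type*} {V : Finset ι} (s : Finset α) {R : α → Module.End K (Z ι K)}
    (h : ∀ a ∈ s, Good V (R a)) : Good V (∑ a ∈ s, R a) := by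
  classical
  induction s using Finset.induction_on with
  | empty => simpa using Good.zero V
  | insert a s ha ih =>
    rw [sum_insert ha]
    exact (h a (mem_insert_self a s)).add (ih fun b hb => h b (mem_insert_of_mem hb))

theorem Good.mul {V : Finset ι} {R R' : Module.End K (Z ι K)} (h : Good V R) (h' : Good V R')
    (hc : Commute R R') : Good V (R * R') where
  ce := h.ce.mul_left h'.ce
  cD := h.cD.mul_left h'.cD
  ch := h.ch.mul_left h'.ch
  sa u v := by
    rw [Module.End.mul_apply, h.sa, h'.sa, ← Module.End.mul_apply, hc.eq]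

theorem Good.T [CharP K 2] {V : Finset ι} {i j : ι} (hi : i ∈ V) (hj : j ∈ V) :
    Good V (T i j : Module.End K (Z ι K)) :=
  ⟨T_e V _ _, T_D V _ _, T_h hi hj, B0_T hi hj⟩

/-- the product of the transforms of a list of pairs -/
def Tl (l : List (ι × ι)) : Module.End K (Z ι K) := (l.map fun p => D81877ZF.T p.1 p.2).prod

theorem Tl_nil : (Tl [] : Module.End K (Z ι K)) = 1 := rfl

theorem Tl_cons (p : ι × ι) (l : List (ι × ι)) :
    (Tl (p :: l) : Module.End K (Z ι K)) = D81877ZF.T p.1 p.2 * Tl l := by
  unfold Tl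
  rw [List.map_cons, List.prod_cons]

theorem T_Tl (i j : ι) (l : List (ι × ι)) :
    Commute (D81877ZF.T i j : Module.End K (Z ι K)) (Tl l) := by
  induction l with
  | nil => rw [Tl_nil]; exact Commute.one_right _
  | cons a l ih => rw [Tl_cons]; exact (T_T _ _ _ _).mul_right ih

/-- products of transforms are good -/
theorem Good.list [CharP K 2] {V : Finset ι} (l : List (ι × ι))
    (hl : ∀ p ∈ l, p.1 ∈ V ∧ p.2 ∈ V) : Good V (Tl l : Module.End K (Z ι K)) := by
  induction l with
  | nil => rw [Tl_nil]; exact Good.one V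
  | cons a l ih =>
    rw [Tl_cons]
    exact (Good.T (hl a List.mem_cons_self).1 (hl a List.mem_cons_self).2).mul
      (ih fun p hp => hl p (List.mem_cons_of_mem _ hp)) (T_Tl _ _ _)

/-- the sum of all `θ_A` with `A ⊆ V` of size `m` -/
def eta (V : Finset ι) (m : ℕ) : Z ι K :=
  fun A B => if B = ∅ ∧ A ∈ V.powersetCard m then 1 else 0

theorem B0_eta (V : Finset ι) (m : ℕ) (z : Z ι K) :
    B0 V (eta V m) z = ∑ A ∈ V.powersetCard m, z ∅ A := by
  unfold B0 eta
  have h1 : ∀ A : Finset ι, ∑ B ∈ V.powerset,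
      (if B = ∅ ∧ A ∈ V.powersetCard m then (1 : K) else 0) * z B A
        = if A ∈ V.powersetCard m then z ∅ A else 0 := by
    intro A
    rw [Finset.sum_eq_single ∅ (fun B _ hB => by simp [hB])
      (fun h => absurd (empty_mem_powerset V) h)]
    by_cases h : A ∈ V.powersetCard m
    · rw [if_pos ⟨rfl, h⟩, if_pos h, one_mul]
    · rw [if_neg (fun h' => h h'.2), if_neg h, zero_mul]
  rw [Finset.sum_congr rfl fun A _ => h1 A, ← Finset.sum_filter]
  refine Finset.sum_congr ?_ fun _ _ => rfl
  ext A
  simp only [mem_filter, mem_powerset, mem_powersetCard]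
  exact ⟨fun h => h.2, fun h => ⟨h.1, h⟩⟩

/-- double counting -/
theorem sum_powersetCard_succ (V : Finset ι) (m : ℕ) (F : ι → Finset ι → K) :
    ∑ W ∈ V.powersetCard (m + 1), ∑ x ∈ W, F x (W.erase x)
      = ∑ Y ∈ V.powersetCard m, ∑ x ∈ V \ Y, F x Y := by
  rw [Finset.sum_sigma', Finset.sum_sigma']
  refine Finset.sum_bij' (fun p _ => ⟨p.1.erase p.2, p.2⟩) (fun p _ => ⟨insert p.2 p.1, p.2⟩)
    ?_ ?_ ?_ ?_ ?_
  · rintro ⟨W, x⟩ h
    simp only [mem_sigma, mem_powersetCard] at h
    simp only [mem_sigma, mem_powersetCard, mem_sdiff, mem_erase, ne_eq, not_true_eq_false,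
      false_and, not_false_eq_true, and_true]
    exact ⟨⟨(erase_subset _ _).trans h.1.1, by rw [card_erase_of_mem h.2, h.1.2]; rfl⟩,
      h.1.1 h.2⟩
  · rintro ⟨Y, x⟩ h
    simp only [mem_sigma, mem_powersetCard, mem_sdiff] at h
    simp only [mem_sigma, mem_powersetCard, mem_insert, true_or, and_true]
    exact ⟨insert_subset h.2.1 h.1.1, by rw [card_insert_of_notMem h.2.2, h.1.2]⟩
  · rintro ⟨W, x⟩ h
    simp only [mem_sigma] at h
    simp [insert_erase h.2]
  · rintro ⟨Y, x⟩ h
    simp only [mem_sigma, mem_sdiff] at h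
    simp [erase_insert h.2.2]
  · rintro ⟨W, x⟩ h
    rfl

theorem sum_ite_mem_of_subset {V Y : Finset ι} (hY : Y ⊆ V) (F : ι → K) :
    ∑ x ∈ V, (if x ∈ Y then F x else 0) = ∑ x ∈ Y, F x := by
  rw [← Finset.sum_filter]
  refine Finset.sum_congr ?_ fun _ _ => rfl
  ext x
  simp only [mem_filter]
  exact ⟨fun h => h.2, fun h => ⟨hY h, h⟩⟩

theorem sum_ite_notMem (V Y : Finset ι) (F : ι → K) :
    ∑ x ∈ V, (if x ∈ Y then 0 else F x) = ∑ x ∈ V \ Y, F x := by
  have e : ∀ x ∈ V, (if x ∈ Y then 0 else F x) = if x ∉ Y then F x else 0 := fun x _ => by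
    by_cases h : x ∈ Y <;> simp [h]
  rw [Finset.sum_congr rfl e, ← Finset.sum_filter]
  refine Finset.sum_congr ?_ fun _ _ => rfl
  ext x
  simp only [mem_filter, mem_sdiff]

/-- **(L5)**: the vacuum is orthogonal to the common kernel of `e`, `D` and `h`. -/
theorem B0_eta_eq_zero [CharP K 2] {V : Finset ι} {b : ℕ} {z : Z ι K}
    (he : e V z = 0) (hD : D V z = 0) (hh : h V z = 0) :
    B0 V (eta V (2 * b + 1)) z = 0 := by
  rw [B0_eta]
  have h1 : ∀ Y ∈ V.powersetCard (2 * b), ∑ x ∈ V \ Y, z ∅ (insert x Y)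
      + ∑ x ∈ Y, z {x} Y = 0 := by
    intro Y hY
    have hYV := (mem_powersetCard.mp hY).1
    have h := congrFun (congrFun hh ∅) Y
    simp only [D81877ZF.h, LinearMap.sum_apply, Finset.sum_apply, LinearMap.add_apply,
      Module.End.mul_apply, Pi.add_apply, g_apply, f_apply, d_apply, Pi.zero_apply,
      notMem_empty, if_false, mem_erase, ne_eq, not_true_eq_false, false_and] at h
    rw [Finset.sum_add_distrib, sum_ite_notMem, sum_ite_mem_of_subset hYV] at h
    rw [← h]
    congr 1
    refine Finset.sum_congr rfl fun x hx => ?_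
    rw [insert_erase hx]
    rfl
  have h2 : ∀ Y ∈ V.powersetCard (2 * b), ∑ x ∈ V \ Y, z {x} Y
      + ∑ x ∈ Y, z {x} Y = 0 := by
    intro Y hY
    have hYV := (mem_powersetCard.mp hY).1
    have h := congrFun (congrFun he ∅) Y
    simp only [e, LinearMap.sum_apply, Finset.sum_apply, d_apply, Pi.zero_apply,
      notMem_empty, if_false] at h
    rw [← h, Finset.sum_sdiff hYV]
    rfl
  have h3 : ∀ W ∈ V.powersetCard (2 * b + 1), ∑ x ∈ W, z {x} (W.erase x) = 0 := by
    intro W hW
    have hWV := (mem_powersetCard.mp hW).1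
    have h := congrFun (congrFun hD ∅) W
    simp only [D, LinearMap.sum_apply, Finset.sum_apply, d_apply, Pi.zero_apply,
      Module.End.mul_apply, f_apply, notMem_empty, if_false] at h
    rw [sum_ite_mem_of_subset hWV] at h
    rw [← h]
    rfl
  have s1 := Finset.sum_eq_zero h1
  have s2 := Finset.sum_eq_zero h2
  have s3 := Finset.sum_eq_zero h3
  rw [sum_powersetCard_succ V (2 * b) (fun x Y => z {x} Y)] at s3
  rw [Finset.sum_add_distrib] at s1 s2
  rw [s3, zero_add] at s2
  rw [s2, add_zero] at s1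
  have s4 := sum_powersetCard_succ V (2 * b) (fun x Y => z ∅ (insert x Y))
  rw [s1] at s4
  rw [← s4]
  refine Finset.sum_congr rfl fun W hW => ?_
  have hWc := (mem_powersetCard.mp hW).2
  have s5 : ∀ x ∈ W, z ∅ (insert x (W.erase x)) = z ∅ W := fun x hx => by
    rw [insert_erase hx]
  rw [Finset.sum_congr rfl s5, Finset.sum_const, hWc, nsmul_eq_mul]
  push_cast
  rw [CharTwo.two_eq_zero, zero_mul, zero_add, one_mul]

/-- all transforms of the vacuum are orthogonal to the common kernel of `e`, `D` and `h` -/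
theorem B0_good_eta_eq_zero [CharP K 2] {V : Finset ι} {b : ℕ} {z : Z ι K}
    {R : Module.End K (Z ι K)} (hR : Good V R)
    (he : e V z = 0) (hD : D V z = 0) (hh : h V z = 0) :
    B0 V (R (eta V (2 * b + 1))) z = 0 := by
  rw [hR.sa]
  apply B0_eta_eq_zero
  · rw [← Module.End.mul_apply, ← hR.ce.eq, Module.End.mul_apply, he, map_zero]
  · rw [← Module.End.mul_apply, ← hR.cD.eq, Module.End.mul_apply, hD, map_zero]
  · rw [← Module.End.mul_apply, ← hR.ch.eq, Module.End.mul_apply, hh, map_zero]

/-- the number operator of one site -/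
theorem site_number (x : ι) (v : Z ι K) (A B : Finset ι) :
    (f x * d x * (th x * g x) + th x * g x * (f x * d x) : Module.End K (Z ι K)) v A B
      = (if x ∈ B \ A then v A B else 0) + (if x ∈ A \ B then v A B else 0) := by
  simp only [LinearMap.add_apply, Pi.add_apply, Module.End.mul_apply, f_apply, d_apply,
    th_apply, g_apply, mem_sdiff]
  by_cases hA : x ∈ A <;> by_cases hB : x ∈ B <;> simp [hA, hB]

/-- the number operator -/
theorem number [CharP K 2] (V : Finset ι) (v : Z ι K) (A B : Finset ι) :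
    (D V * D' V + D' V * D V : Module.End K (Z ι K)) v A B
      = ∑ x ∈ V, ((if x ∈ B \ A then v A B else 0) + (if x ∈ A \ B then v A B else 0)) := by
  have h1 : (D V * D' V + D' V * D V : Module.End K (Z ι K))
      = ∑ x ∈ V, (f x * d x * (th x * g x) + th x * g x * (f x * d x)) := by
    unfold D D'
    rw [Finset.sum_mul_sum, Finset.sum_mul_sum, Finset.sum_comm (s := V) (t := V)
      (f := fun x y => (th x * g x * (f y * d y) : Module.End K (Z ι K))),
      ← Finset.sum_add_distrib]
    refine Finset.sum_congr rfl fun x hx => ?_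
    rw [← Finset.sum_add_distrib, Finset.sum_eq_single x]
    · intro y _ hyx
      have hxy : x ≠ y := fun h => hyx h.symm
      have c : Commute (f x * d x : Module.End K (Z ι K)) (th y * g y) := by
        have c1 : Commute (f x : Module.End K (Z ι K)) (th y) := f_th_comm x y
        have c2 : Commute (f x : Module.End K (Z ι K)) (g y) := (g_f_comm hyx).symm
        have c3 : Commute (d x : Module.End K (Z ι K)) (th y) := d_th_comm hxy
        have c4 : Commute (d x : Module.End K (Z ι K)) (g y) := (g_d_comm y x).symm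
        exact (c1.mul_right c2).mul_left (c3.mul_right c4)
      rw [c.eq]
      exact end_add_self _
    · intro h
      exact absurd hx h
  rw [h1, LinearMap.sum_apply, Finset.sum_apply, Finset.sum_apply]
  exact Finset.sum_congr rfl fun x _ => site_number x v A B

/-- elements of odd degree on the sites of `V` -/
def OddIn (V : Finset ι) (w : Z ι K) : Prop :=
  ∀ A B : Finset ι, ¬ (A ⊆ V ∧ B ⊆ V ∧ Odd (A.card + B.card)) → w A B = 0

/-- in odd degree the kernel of `D` is its image -/
theorem exists_of_D_eq_zero [CharP K 2] {V : Finset ι} {w : Z ι K} (hw : OddIn V w)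
    (hD : D V w = 0) : D V (D' V w) = w := by
  funext A B
  have h1 := number V w A B
  rw [LinearMap.add_apply, Module.End.mul_apply, Module.End.mul_apply, hD, map_zero,
    add_zero] at h1
  rw [h1]
  by_cases hp : A ⊆ V ∧ B ⊆ V ∧ Odd (A.card + B.card)
  · have s1 : B \ A ⊆ V := sdiff_subset.trans hp.2.1
    have s2 : A \ B ⊆ V := sdiff_subset.trans hp.1
    rw [Finset.sum_add_distrib, sum_ite_mem_of_subset s1 (fun _ => w A B),
      sum_ite_mem_of_subset s2 (fun _ => w A B), Finset.sum_const, Finset.sum_const,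
      nsmul_eq_mul, nsmul_eq_mul, ← add_mul]
    have h2 : ((B \ A).card : K) + ((A \ B).card : K) = 1 := by
      have e1 := Finset.card_sdiff_add_card_inter A B
      have e2 := Finset.card_sdiff_add_card_inter B A
      rw [inter_comm] at e2
      obtain ⟨k, hk⟩ := hp.2.2
      have e3 : (B \ A).card + (A \ B).card + 2 * (A ∩ B).card = 2 * k + 1 := by
        omega
      have e4 := congrArg (fun n : ℕ => (n : K)) e3
      push_cast at e4
      rw [CharTwo.two_eq_zero, zero_mul, zero_mul, zero_add, add_zero] at e4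
      exact e4
    rw [h2, one_mul]
  · rw [hw A B hp]
    simp

/-- **(L4)**: if `D w = D (R η)` then `w` is orthogonal to the common kernel -/
theorem B0_eq_zero [CharP K 2] {V : Finset ι} {b : ℕ} {z w : Z ι K}
    {R : Module.End K (Z ι K)} (hR : Good V R) (hRη : OddIn V (R (eta V (2 * b + 1))))
    (hw : OddIn V w) (hDw : D V w = D V (R (eta V (2 * b + 1))))
    (he : e V z = 0) (hD : D V z = 0) (hh : h V z = 0) : B0 V w z = 0 := by
  set t := R (eta V (2 * b + 1)) with ht
  have h1 : OddIn V (w + t) := fun A B hp => by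
    rw [Pi.add_apply, Pi.add_apply, hw A B hp, hRη A B hp, add_zero]
  have h2 : D V (w + t) = 0 := by
    rw [map_add, hDw]
    exact Z_add_self _
  have h3 := exists_of_D_eq_zero h1 h2
  have h4 : B0 V (w + t) z = 0 := by
    rw [← h3, B0_D, hD, B0_zero_right]
  rw [B0_add_left, ht, B0_good_eta_eq_zero hR he hD hh, add_zero] at h4
  exact h4

/-- the operators `f_i d_j` preserve odd degree -/
theorem OddIn.f_d {V : Finset ι} {w : Z ι K} (hw : OddIn V w) {i : ι} (hi : i ∈ V)
    (j : ι) : OddIn V (f i (d j w)) := by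
  intro A B hp
  simp only [f_apply, d_apply]
  by_cases h1 : i ∈ B
  · by_cases h2 : j ∈ A
    · simp [h2]
    · rw [if_pos h1, if_neg h2]
      apply hw
      rintro ⟨h3, h4, h5⟩
      refine hp ⟨fun x hx => h3 (mem_insert_of_mem hx), fun x hx => ?_, ?_⟩
      · by_cases hxi : x = i
        · rwa [hxi]
        · exact h4 (mem_erase.mpr ⟨hxi, hx⟩)
      · have e1 := card_insert_of_notMem h2
        have e2 := card_erase_of_mem h1
        have e3 := card_pos.mpr ⟨i, h1⟩
        rw [e1, e2] at h5
        obtain ⟨k, hk⟩ := h5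
        exact ⟨k, by omega⟩
  · rw [if_neg h1]

theorem OddIn.add {V : Finset ι} {w w' : Z ι K} (hw : OddIn V w) (hw' : OddIn V w') :
    OddIn V (w + w') := fun A B hp => by
  rw [Pi.add_apply, Pi.add_apply, hw A B hp, hw' A B hp, add_zero]

theorem OddIn.T {V : Finset ι} {w : Z ι K} (hw : OddIn V w) {i j : ι} (hi : i ∈ V)
    (hj : j ∈ V) : OddIn V (D81877ZF.T i j w) := by
  have e : D81877ZF.T i j w = (f i (d i w) + f i (d j w))
      + (f j (d i w) + f j (d j w)) + f i (d i (f j (d j w))) := by
    have h1 := LinearMap.congr_fun (f_d_comm (K := K) j i).eq (d j w)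
    rw [Module.End.mul_apply, Module.End.mul_apply] at h1
    simp only [D81877ZF.T, LinearMap.add_apply, Module.End.mul_apply, map_add]
    rw [h1]
    abel
  rw [e]
  exact ((((hw.f_d hi i).add (hw.f_d hi j)).add ((hw.f_d hj i).add
    (hw.f_d hj j)))).add ((hw.f_d hj j).f_d hi i)

theorem OddIn.eta (V : Finset ι) (b : ℕ) : OddIn V (eta V (2 * b + 1) : Z ι K) := by
  intro A B hp
  unfold D81877ZF.eta
  rw [if_neg]
  rintro ⟨h1, h2⟩
  rw [mem_powersetCard] at h2
  exact hp ⟨h2.1, by rw [h1]; exact empty_subset _, by rw [h1, h2.2]; exact ⟨b, by simp⟩⟩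

theorem OddIn.list {V : Finset ι} {w : Z ι K} (hw : OddIn V w) (l : List (ι × ι))
    (hl : ∀ p ∈ l, p.1 ∈ V ∧ p.2 ∈ V) : OddIn V (Tl l w) := by
  induction l with
  | nil => rw [Tl_nil]; exact hw
  | cons a l ih =>
    obtain ⟨h3, h4⟩ := hl a List.mem_cons_self
    rw [Tl_cons, Module.End.mul_apply]
    exact (ih fun p hp => hl p (List.mem_cons_of_mem _ hp)).T h3 h4

/-- **(L4)+(L5)** for products of transforms -/
theorem B0_eq_zero_list [CharP K 2] {V : Finset ι} {b : ℕ} {z w : Z ι K} (l : List (ι × ι))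
    (hl : ∀ p ∈ l, p.1 ∈ V ∧ p.2 ∈ V) (hw : OddIn V w)
    (hDw : D V w = D V (Tl l (D81877ZF.eta V (2 * b + 1))))
    (he : e V z = 0) (hD : D V z = 0) (hh : h V z = 0) : B0 V w z = 0 :=
  B0_eq_zero (Good.list l hl) ((OddIn.eta V b).list l hl) hw hDw he hD hh

end Pairing

end D81877ZF
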