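import Mathlib

/-!
# MP_d81877_al, part D: the commutative model Z, its operators and its form

`Z = Finset ι → Finset ι → K`, `u A B` is the coefficient of `θ_A f_B`.
`th x`, `f x` are multiplications by `θ_x`, `f_x`; `d x = ∂/∂θ_x`, `g x = ∂/∂f_x`.
-/

namespace D81877ZF

open Finset

variable {ι : Type*} [DecidableEq ι] {K : Type*} [Field K]

/-- the model: `u A B` is the coefficient of `θ_A f_B` -/
abbrev Z (ι : Type*) (K : Type*) := Finset ι → Finset ι → K

/-- multiplication by `θ_x` -/
def th (x : ι) : Module.End K (Z ι K) where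
  toFun u := fun A B => if x ∈ A then u (A.erase x) B else 0
  map_add' u v := by
    funext A B; by_cases h : x ∈ A <;> simp [h]
  map_smul' c u := by
    funext A B; by_cases h : x ∈ A <;> simp [h]

/-- multiplication by `f_x` -/
def f (x : ι) : Module.End K (Z ι K) where
  toFun u := fun A B => if x ∈ B then u A (B.erase x) else 0
  map_add' u v := by
    funext A B; by_cases h : x ∈ B <;> simp [h]
  map_smul' c u := by
    funext A B; by_cases h : x ∈ B <;> simp [h]

/-- `∂/∂θ_x` -/
def d (x : ι) : Module.End K (Z ι K) where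
  toFun u := fun A B => if x ∈ A then 0 else u (insert x A) B
  map_add' u v := by
    funext A B; by_cases h : x ∈ A <;> simp [h]
  map_smul' c u := by
    funext A B; by_cases h : x ∈ A <;> simp [h]

/-- `∂/∂f_x` -/
def g (x : ι) : Module.End K (Z ι K) where
  toFun u := fun A B => if x ∈ B then 0 else u A (insert x B)
  map_add' u v := by
    funext A B; by_cases h : x ∈ B <;> simp [h]
  map_smul' c u := by
    funext A B; by_cases h : x ∈ B <;> simp [h]

theorem th_apply (x : ι) (u : Z ι K) (A B : Finset ι) :
    th x u A B = if x ∈ A then u (A.erase x) B else 0 := rfl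
theorem f_apply (x : ι) (u : Z ι K) (A B : Finset ι) :
    f x u A B = if x ∈ B then u A (B.erase x) else 0 := rfl
theorem d_apply (x : ι) (u : Z ι K) (A B : Finset ι) :
    d x u A B = if x ∈ A then 0 else u (insert x A) B := rfl
theorem g_apply (x : ι) (u : Z ι K) (A B : Finset ι) :
    g x u A B = if x ∈ B then 0 else u A (insert x B) := rfl

/-! ### relations -/

theorem f_comm (x y : ι) : Commute (f x : Module.End K (Z ι K)) (f y) := by
  ext u A B
  simp only [Module.End.mul_apply, f_apply, mem_erase]
  by_cases hxy : x = y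
  · subst hxy; rfl
  · by_cases hx : x ∈ B <;> by_cases hy : y ∈ B <;>
      simp [hx, hy, hxy, Ne.symm hxy, erase_right_comm]

theorem th_comm (x y : ι) : Commute (th x : Module.End K (Z ι K)) (th y) := by
  ext u A B
  simp only [Module.End.mul_apply, th_apply, mem_erase]
  by_cases hxy : x = y
  · subst hxy; rfl
  · by_cases hx : x ∈ A <;> by_cases hy : y ∈ A <;>
      simp [hx, hy, hxy, Ne.symm hxy, erase_right_comm]

theorem d_comm (x y : ι) : Commute (d x : Module.End K (Z ι K)) (d y) := by
  ext u A B
  simp only [Module.End.mul_apply, d_apply, mem_insert]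
  by_cases hxy : x = y
  · subst hxy; rfl
  · by_cases hx : x ∈ A <;> by_cases hy : y ∈ A <;>
      simp [hx, hy, hxy, Ne.symm hxy, insert_comm]

theorem g_comm (x y : ι) : Commute (g x : Module.End K (Z ι K)) (g y) := by
  ext u A B
  simp only [Module.End.mul_apply, g_apply, mem_insert]
  by_cases hxy : x = y
  · subst hxy; rfl
  · by_cases hx : x ∈ B <;> by_cases hy : y ∈ B <;>
      simp [hx, hy, hxy, Ne.symm hxy, insert_comm]

theorem f_d_comm (x y : ι) : Commute (f x : Module.End K (Z ι K)) (d y) := by
  ext u A B
  simp only [Module.End.mul_apply, f_apply, d_apply]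
  by_cases hx : x ∈ B <;> by_cases hy : y ∈ A <;> simp [hx, hy]

theorem f_th_comm (x y : ι) : Commute (f x : Module.End K (Z ι K)) (th y) := by
  ext u A B
  simp only [Module.End.mul_apply, f_apply, th_apply]
  by_cases hx : x ∈ B <;> by_cases hy : y ∈ A <;> simp [hx, hy]

theorem g_d_comm (x y : ι) : Commute (g x : Module.End K (Z ι K)) (d y) := by
  ext u A B
  simp only [Module.End.mul_apply, g_apply, d_apply]
  by_cases hx : x ∈ B <;> by_cases hy : y ∈ A <;> simp [hx, hy]

theorem g_th_comm (x y : ι) : Commute (g x : Module.End K (Z ι K)) (th y) := by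
  ext u A B
  simp only [Module.End.mul_apply, g_apply, th_apply]
  by_cases hx : x ∈ B <;> by_cases hy : y ∈ A <;> simp [hx, hy]

theorem g_f_comm {x y : ι} (hxy : x ≠ y) : Commute (g x : Module.End K (Z ι K)) (f y) := by
  ext u A B
  simp only [Module.End.mul_apply, g_apply, f_apply, mem_insert, mem_erase]
  by_cases hx : x ∈ B <;> by_cases hy : y ∈ B <;>
    simp [hx, hy, hxy, Ne.symm hxy, erase_insert_of_ne hxy]

theorem d_th_comm {x y : ι} (hxy : x ≠ y) : Commute (d x : Module.End K (Z ι K)) (th y) := by
  ext u A B
  simp only [Module.End.mul_apply, d_apply, th_apply, mem_insert, mem_erase]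
  by_cases hx : x ∈ A <;> by_cases hy : y ∈ A <;>
    simp [hx, hy, hxy, Ne.symm hxy, erase_insert_of_ne hxy]

theorem g_f_same (x : ι) :
    (g x : Module.End K (Z ι K)) * f x + f x * g x = 1 := by
  ext u A B
  simp only [Module.End.mul_apply, LinearMap.add_apply, Pi.add_apply, g_apply, f_apply,
    mem_insert, mem_erase, Module.End.one_apply]
  by_cases hx : x ∈ B <;> simp [hx]

theorem d_th_same (x : ι) :
    (d x : Module.End K (Z ι K)) * th x + th x * d x = 1 := by
  ext u A B
  simp only [Module.End.mul_apply, LinearMap.add_apply, Pi.add_apply, d_apply, th_apply,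
    mem_insert, mem_erase, Module.End.one_apply]
  by_cases hx : x ∈ A <;> simp [hx]

theorem f_sq (x : ι) : (f x : Module.End K (Z ι K)) * f x = 0 := by
  ext u A B; simp [Module.End.mul_apply, f_apply]

theorem th_sq (x : ι) : (th x : Module.End K (Z ι K)) * th x = 0 := by
  ext u A B; simp [Module.End.mul_apply, th_apply]

theorem d_sq (x : ι) : (d x : Module.End K (Z ι K)) * d x = 0 := by
  ext u A B; simp [Module.End.mul_apply, d_apply]

theorem g_sq (x : ι) : (g x : Module.End K (Z ι K)) * g x = 0 := by
  ext u A B; simp [Module.End.mul_apply, g_apply]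

end D81877ZF
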