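import Pool.Agent.Lib.MP_d81877_alZF.Orth
import Pool.Agent.Lib.MP_d81877_alZ.Defs

/-!
# MP_d81877_al, part D: orthogonality in the twisted coordinates (L4 and L5)

`TH V x` is multiplication by `θ_x = ε_x + ∑_{y > x} f_y + pos(x) f_x`, `Xi V = ∑ θ_x (1 + f_x d_x)`
is adjoint to `ez V + e V`, and the sum over all increasing lists `Q` of length `2b+2` of the
vectors `a Q` is in the image of `Xi V` (`|V|` even).
-/

namespace D81877ZF

open Finset D81877Z

set_option linter.unusedSectionVars false

variable {ι : Type*} [LinearOrder ι] {K : Type*} [Field K]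

/-- multiplication by `θ_x` -/
def TH (V : Finset ι) (x : ι) : Module.End K (Z ι K) :=
  th x + ∑ y ∈ V.filter (fun y => x < y), f y + ((V.filter (fun y => y < x)).card : K) • f x

/-- `Xi = ∑ θ_x (1 + f_x d_x)` -/
def Xi (V : Finset ι) : Module.End K (Z ι K) := ∑ x ∈ V, TH V x * (1 + f x * d x)

/-- the vacuum -/
def vac : Z ι K := fun A B => if A = ∅ ∧ B = ∅ then 1 else 0

theorem d_vac (x : ι) : d x (vac : Z ι K) = 0 := by
  funext A B
  rw [d_apply]
  by_cases h : x ∈ A
  · rw [if_pos h]; rfl
  · rw [if_neg h]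
    unfold vac
    rw [if_neg]
    · rfl
    · rintro ⟨h1, _⟩
      exact (insert_ne_empty x A) h1

theorem TH_comm (V : Finset ι) (x y : ι) :
    Commute (TH V x : Module.End K (Z ι K)) (TH V y) := by
  unfold TH
  have c1 : ∀ a b : ι, Commute (th a : Module.End K (Z ι K)) (f b) := fun a b =>
    (f_th_comm b a).symm
  refine ((Commute.add_left ?_ ?_).add_left ?_)
  · exact ((th_comm x y).add_right (Commute.sum_right _ _ _ fun u _ => c1 x u)).add_right
      ((c1 x y).smul_right _)
  · refine Commute.sum_left _ _ _ fun v _ => ?_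
    exact ((f_th_comm v y).add_right (Commute.sum_right _ _ _ fun u _ => f_comm v u)).add_right
      ((f_comm v y).smul_right _)
  · refine Commute.smul_left ?_ _
    exact ((f_th_comm x y).add_right (Commute.sum_right _ _ _ fun u _ => f_comm x u)).add_right
      ((f_comm x y).smul_right _)

theorem f_TH (V : Finset ι) (x y : ι) : Commute (f x : Module.End K (Z ι K)) (TH V y) := by
  unfold TH
  exact ((f_th_comm x y).add_right (Commute.sum_right _ _ _ fun u _ => f_comm x u)).add_right
    ((f_comm x y).smul_right _)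

theorem d_TH_of_ne (V : Finset ι) {x y : ι} (hxy : x ≠ y) :
    Commute (d x : Module.End K (Z ι K)) (TH V y) := by
  unfold TH
  exact ((d_th_comm hxy).add_right (Commute.sum_right _ _ _ fun u _ =>
    (f_d_comm u x).symm)).add_right ((f_d_comm y x).symm.smul_right _)

section CharTwo

variable [CharP K 2]

/-- sums of commuting square zero elements have square zero -/
theorem sq_add_zero {R : Type*} [Ring R] (h2 : ∀ a : R, a + a = 0) {a b : R}
    (ha : a * a = 0) (hb : b * b = 0) (hc : a * b = b * a) : (a + b) * (a + b) = 0 := by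
  have : (a + b) * (a + b) = a * a + b * b + (a * b + b * a) := by noncomm_ring
  rw [this, ha, hb, hc, zero_add, zero_add]
  exact h2 _

theorem sum_f_sq (s : Finset ι) :
    (∑ y ∈ s, f y : Module.End K (Z ι K)) * (∑ y ∈ s, f y) = 0 := by
  induction s using Finset.induction_on with
  | empty => simp
  | insert a s ha ih =>
    rw [sum_insert ha]
    exact sq_add_zero end_add_self (f_sq a) ih (Commute.sum_right _ _ _ fun u _ => f_comm a u).eq

theorem TH_sq (V : Finset ι) (x : ι) :
    (TH V x : Module.End K (Z ι K)) * TH V x = 0 := by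
  unfold TH
  have c1 : ∀ a b : ι, Commute (th a : Module.End K (Z ι K)) (f b) := fun a b =>
    (f_th_comm b a).symm
  refine sq_add_zero end_add_self (sq_add_zero end_add_self (th_sq x) (sum_f_sq _)
    (Commute.sum_right _ _ _ fun u _ => c1 x u).eq) ?_ ?_
  · rw [smul_mul_smul_comm, f_sq, smul_zero]
  · exact ((c1 x x).add_left (Commute.sum_left _ _ _ fun u _ => f_comm u x)).smul_right _

theorem d_TH_same (V : Finset ι) (x : ι) :
    (d x : Module.End K (Z ι K)) * TH V x + TH V x * d x = 1 := by
  unfold TH
  rw [mul_add, mul_add, add_mul, add_mul, mul_smul_comm, smul_mul_assoc, (f_d_comm x x).eq]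
  have h1 : (d x : Module.End K (Z ι K)) * ∑ y ∈ V.filter (fun y => x < y), f y
      = (∑ y ∈ V.filter (fun y => x < y), f y) * d x :=
    (Commute.sum_right _ _ _ fun u _ => (f_d_comm u x).symm).eq
  rw [h1, ← d_th_same (K := K) x]
  have h2 := end_add_self ((∑ y ∈ V.filter (fun y => x < y), f y) * (d x : Module.End K (Z ι K)))
  have h3 := end_add_self (((V.filter (fun y => y < x)).card : K) •
    ((d x : Module.End K (Z ι K)) * f x))
  calc _ = ((d x : Module.End K (Z ι K)) * th x + th x * d x)
        + ((∑ y ∈ V.filter (fun y => x < y), f y) * (d x : Module.End K (Z ι K))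
          + (∑ y ∈ V.filter (fun y => x < y), f y) * (d x : Module.End K (Z ι K)))
        + (((V.filter (fun y => y < x)).card : K) • ((d x : Module.End K (Z ι K)) * f x)
          + ((V.filter (fun y => y < x)).card : K) • ((d x : Module.End K (Z ι K)) * f x)) := by
        abel
    _ = _ := by rw [h2, h3, add_zero, add_zero]

/-- `[d_i, Xi] = 1 + f_i d_i` -/
theorem Xi_d {V : Finset ι} {i : ι} (hi : i ∈ V) :
    (Xi V : Module.End K (Z ι K)) * d i = d i * Xi V + (1 + d i * f i) := by
  unfold Xi
  rw [← Finset.add_sum_erase V _ hi, add_mul _ _ (d i : Module.End K (Z ι K)),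
    mul_add (d i : Module.End K (Z ι K))]
  have h3 : (∑ x ∈ V.erase i, TH V x * (1 + f x * d x)) * (d i : Module.End K (Z ι K))
      = d i * ∑ x ∈ V.erase i, TH V x * (1 + f x * d x) := by
    apply (Commute.sum_left _ _ _ fun x hx => ?_ : Commute _ _)
    have hxi : x ≠ i := (mem_erase.mp hx).1
    exact (d_TH_of_ne V hxi.symm).symm.mul_left
      ((Commute.one_left _).add_left ((f_d_comm x i).mul_left (d_comm x i)))
  have h4 : TH V i * (1 + f i * d i) * (d i : Module.End K (Z ι K))
      = d i * (TH V i * (1 + f i * d i)) + (1 + d i * f i) := by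
    have e1 : TH V i * (d i : Module.End K (Z ι K)) = 1 + d i * TH V i := by
      rw [← d_TH_same (K := K) V i]
      have h2 := end_add_self ((d i : Module.End K (Z ι K)) * TH V i)
      calc TH V i * (d i : Module.End K (Z ι K)) = TH V i * d i
            + (d i * TH V i + d i * TH V i) := by rw [h2, add_zero]
        _ = _ := by abel
    have e2 : (1 + f i * d i) * (d i : Module.End K (Z ι K)) = d i * (1 + f i * d i) := by
      rw [add_mul, mul_add, one_mul, mul_one, mul_assoc, d_sq, mul_zero, ← mul_assoc,
        ← (f_d_comm i i).eq, mul_assoc, d_sq, mul_zero]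
    calc TH V i * (1 + f i * d i) * (d i : Module.End K (Z ι K))
        = (TH V i * d i) * (1 + f i * d i) := by rw [mul_assoc, e2]; noncomm_ring
      _ = (1 + d i * TH V i) * (1 + f i * d i) := by rw [e1]
      _ = d i * (TH V i * (1 + f i * d i)) + (1 + f i * d i) := by noncomm_ring
      _ = _ := by rw [(f_d_comm i i).eq]
  rw [h3, h4]
  abel

omit [CharP K 2] in
theorem Xi_f (V : Finset ι) (i : ι) : Commute (Xi V : Module.End K (Z ι K)) (f i) := by
  unfold Xi
  refine Commute.sum_left _ _ _ fun x _ => ?_
  exact (f_TH V i x).symm.mul_left ((Commute.one_left _).add_left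
    ((f_comm x i).mul_left (f_d_comm i x).symm))

/-- the transforms commute with `Xi` -/
theorem T_Xi {V : Finset ι} {i j : ι} (hi : i ∈ V) (hj : j ∈ V) :
    Commute (T i j : Module.End K (Z ι K)) (Xi V) := by
  have h1 := ring_aux2 (R := Module.End K (Z ι K)) end_add_self (Xi_d hi) (Xi_d hj)
    (Xi_f V i).eq (Xi_f V j).eq (f_sq i) (f_sq j) (f_comm i j).eq (f_d_comm i j).eq
  have h2 : (d i + d j) * (f i + f j) + d i * d j * (f i * f j)
      = (T i j : Module.End K (Z ι K)) := by
    unfold T
    have c : Commute (f i + f j : Module.End K (Z ι K)) (d i + d j) :=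
      ((f_d_comm i i).add_left (f_d_comm j i)).add_right ((f_d_comm i j).add_left
        (f_d_comm j j))
    have c' : Commute (f i * f j : Module.End K (Z ι K)) (d i * d j) :=
      ((f_d_comm i i).mul_left (f_d_comm j i)).mul_right ((f_d_comm i j).mul_left
        (f_d_comm j j))
    rw [c.eq, c'.eq]
  rw [h2] at h1
  exact h1.symm

theorem Tl_Xi {V : Finset ι} (l : List (ι × ι)) (hl : ∀ p ∈ l, p.1 ∈ V ∧ p.2 ∈ V) :
    Commute (Tl l : Module.End K (Z ι K)) (Xi V) := by
  induction l with
  | nil => rw [Tl_nil]; exact Commute.one_left _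
  | cons a l ih =>
    rw [Tl_cons]
    exact (T_Xi (hl a List.mem_cons_self).1 (hl a List.mem_cons_self).2).mul_left
      (ih fun p hp => hl p (List.mem_cons_of_mem _ hp))

/-! ### `Xi` and `ez` -/

omit [CharP K 2] in
theorem sum_lt_comm {M : Type*} [AddCommMonoid M] (V : Finset ι) (F : ι → ι → M) :
    ∑ x ∈ V, ∑ y ∈ V.filter (fun y => x < y), F x y
      = ∑ y ∈ V, ∑ x ∈ V.filter (fun x => x < y), F x y := by
  refine Finset.sum_comm' fun x y => ?_
  simp only [mem_filter]
  tauto

/-- the expanded form of `Xi` -/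
theorem Xi_eq (V : Finset ι) :
    (Xi V : Module.End K (Z ι K)) = ∑ x ∈ V, th x * (1 + f x * d x)
      + ∑ x ∈ V, ∑ y ∈ V.filter (fun y => y < x), f x * (f y * d y) := by
  have h1 : ∀ x ∈ V, TH V x * (1 + f x * d x : Module.End K (Z ι K))
      = th x * (1 + f x * d x) + (∑ y ∈ V.filter (fun y => x < y), f y)
        + ((V.filter (fun y => y < x)).card : K) • f x
        + ∑ y ∈ V.filter (fun y => x < y), f y * (f x * d x) := by
    intro x _
    unfold TH
    have e1 : (((V.filter (fun y => y < x)).card : K) • (f x : Module.End K (Z ι K)))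
        * (f x * d x) = 0 := by
      rw [smul_mul_assoc, ← mul_assoc, f_sq, zero_mul, smul_zero]
    rw [add_mul, add_mul, mul_add (∑ y ∈ V.filter (fun y => x < y), f y),
      mul_add (((V.filter (fun y => y < x)).card : K) • (f x : Module.End K (Z ι K))), e1,
      mul_one, mul_one, Finset.sum_mul]
    abel
  unfold Xi
  rw [Finset.sum_congr rfl h1, Finset.sum_add_distrib, Finset.sum_add_distrib,
    Finset.sum_add_distrib]
  have h2 : (∑ x ∈ V, ∑ y ∈ V.filter (fun y => x < y), f y : Module.End K (Z ι K))
      = ∑ x ∈ V, ((V.filter (fun y => y < x)).card : K) • f x := by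
    rw [sum_lt_comm V fun _ y => (f y : Module.End K (Z ι K))]
    refine Finset.sum_congr rfl fun y _ => ?_
    rw [Finset.sum_const, Nat.cast_smul_eq_nsmul]
  rw [h2, sum_lt_comm V fun x y => (f y * (f x * d x) : Module.End K (Z ι K))]
  rw [add_assoc (∑ x ∈ V, th x * (1 + f x * d x) : Module.End K (Z ι K)), end_add_self, add_zero]

/-- `Xi V` is adjoint to `ez V + e V` -/
theorem B0_Xi (V : Finset ι) (u z : Z ι K) :
    B0 V (Xi V u) z = B0 V u (ez V z + e V z) := by
  have h1 : ez V z + e V z = ∑ x ∈ V, (g x z + f x (d x (g x z)))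
      + ∑ x ∈ V, ∑ y ∈ V.filter (fun y => y < x), f y (d y (d x z)) := by
    unfold ez e
    simp only [LinearMap.add_apply, LinearMap.sum_apply, Module.End.mul_apply]
    have e1 : ∀ x ∈ V, g x z + d x z + f x (g x (d x z)) = (g x z + f x (d x (g x z))) + d x z :=
      fun x _ => by rw [gd_comm x x]; abel
    rw [Finset.sum_congr rfl e1, Finset.sum_add_distrib]
    generalize (∑ x ∈ V, d x z) = S
    generalize (∑ x ∈ V, ∑ y ∈ V.filter (fun y => y < x), f y (d y (d x z))) = R
    generalize (∑ x ∈ V, (g x z + f x (d x (g x z)))) = Q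
    calc Q + S + R + S = Q + R + (S + S) := by abel
      _ = Q + R := by rw [Z_add_self, add_zero]
  rw [h1, Xi_eq, LinearMap.add_apply, B0_add_left, B0_add_right]
  congr 1
  · rw [LinearMap.sum_apply, B0_sum_left, B0_sum_right]
    refine Finset.sum_congr rfl fun x hx => ?_
    rw [Module.End.mul_apply, B0_th hx, LinearMap.add_apply, Module.End.one_apply, B0_add_left,
      B0_add_right, Module.End.mul_apply, B0_f hx, B0_d hx, fd_comm x x]
  · rw [LinearMap.sum_apply, B0_sum_left, B0_sum_right]
    refine Finset.sum_congr rfl fun x hx => ?_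
    rw [LinearMap.sum_apply, B0_sum_left, B0_sum_right]
    refine Finset.sum_congr rfl fun y hy => ?_
    have hyV := (mem_filter.mp hy).1
    rw [Module.End.mul_apply, Module.End.mul_apply, B0_f hx, B0_f hyV, B0_d hyV, fd_comm y y]

/-! ### elementary symmetric operators -/

/-- the elementary symmetric operators of the `TH V x`, `x` in the list -/
def eo (V : Finset ι) : List ι → ℕ → Module.End K (Z ι K)
  | [], 0 => 1
  | [], _ + 1 => 0
  | _ :: _, 0 => 1
  | x :: L, n + 1 => eo V L (n + 1) + TH V x * eo V L n

theorem eo_zero (V : Finset ι) (L : List ι) : (eo V L 0 : Module.End K (Z ι K)) = 1 := by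
  cases L <;> rfl

theorem eo_nil_succ (V : Finset ι) (n : ℕ) :
    (eo V [] (n + 1) : Module.End K (Z ι K)) = 0 := rfl

theorem eo_cons (V : Finset ι) (x : ι) (L : List ι) (n : ℕ) :
    (eo V (x :: L) (n + 1) : Module.End K (Z ι K)) = eo V L (n + 1) + TH V x * eo V L n := rfl

theorem commute_eo_of {V : Finset ι} {R : Module.End K (Z ι K)} (L : List ι)
    (h : ∀ x ∈ L, Commute R (TH V x)) (n : ℕ) : Commute R (eo V L n) := by
  induction L generalizing n with
  | nil =>
    cases n with
    | zero => exact Commute.one_right _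
    | succ n => exact Commute.zero_right _
  | cons a L ih =>
    cases n with
    | zero => exact Commute.one_right _
    | succ n =>
      rw [eo_cons]
      have ih' := ih fun x hx => h x (List.mem_cons_of_mem _ hx)
      exact (ih' _).add_right ((h a List.mem_cons_self).mul_right (ih' _))

theorem TH_eo (V : Finset ι) (x : ι) (L : List ι) (n : ℕ) :
    Commute (TH V x : Module.End K (Z ι K)) (eo V L n) :=
  commute_eo_of L (fun y _ => TH_comm V x y) n

theorem f_eo (V : Finset ι) (x : ι) (L : List ι) (n : ℕ) :
    Commute (f x : Module.End K (Z ι K)) (eo V L n) :=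
  commute_eo_of L (fun y _ => f_TH V x y) n

theorem d_eo (V : Finset ι) {x : ι} {L : List ι} (hx : x ∉ L) (n : ℕ) :
    Commute (d x : Module.End K (Z ι K)) (eo V L n) :=
  commute_eo_of L (fun y hy => d_TH_of_ne V (by rintro rfl; exact hx hy)) n

/-- the sum of the `TH V x` over the list -/
def SL (V : Finset ι) (L : List ι) : Module.End K (Z ι K) := (L.map fun x => TH V x).sum

/-- the sum of the `f x * TH V x` over the list -/
def FL (V : Finset ι) (L : List ι) : Module.End K (Z ι K) := (L.map fun x => f x * TH V x).sum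

/-- the sum of the `TH V x * (f x * d x)` over the list -/
def WL (V : Finset ι) (L : List ι) : Module.End K (Z ι K) :=
  (L.map fun x => TH V x * (f x * d x)).sum

theorem TH_SL (V : Finset ι) (x : ι) (L : List ι) :
    Commute (TH V x : Module.End K (Z ι K)) (SL V L) := by
  unfold SL
  induction L with
  | nil => simp
  | cons a L ih =>
    rw [List.map_cons, List.sum_cons]
    exact (TH_comm V x a).add_right ih

theorem TH_FL (V : Finset ι) (x : ι) (L : List ι) :
    Commute (TH V x : Module.End K (Z ι K)) (FL V L) := by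
  unfold FL
  induction L with
  | nil => simp
  | cons a L ih =>
    rw [List.map_cons, List.sum_cons]
    exact ((f_TH V a x).symm.mul_right (TH_comm V x a)).add_right ih

theorem TH_WL (V : Finset ι) {x : ι} {L : List ι} (hx : x ∉ L) :
    Commute (TH V x : Module.End K (Z ι K)) (WL V L) := by
  unfold WL
  induction L with
  | nil => simp
  | cons a L ih =>
    rw [List.map_cons, List.sum_cons]
    rw [List.mem_cons, not_or] at hx
    exact ((TH_comm V x a).mul_right ((f_TH V a x).symm.mul_right
      (d_TH_of_ne V (Ne.symm hx.1)).symm)).add_right (ih hx.2)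

/-- `e_1 e_n = (n+1) e_(n+1)` -/
theorem SL_eo (V : Finset ι) (L : List ι) (n : ℕ) :
    (SL V L * eo V L n : Module.End K (Z ι K)) = ((n + 1 : ℕ) : K) • eo V L (n + 1) := by
  induction L generalizing n with
  | nil => simp [SL, eo_nil_succ]
  | cons x L ih =>
    have hS : (SL V (x :: L) : Module.End K (Z ι K)) = TH V x + SL V L := by
      unfold SL
      rw [List.map_cons, List.sum_cons]
    rw [hS]
    cases n with
    | zero =>
      have h0 := ih 0
      rw [eo_zero, mul_one] at h0
      rw [eo_zero, mul_one, eo_cons, h0, eo_zero, mul_one]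
      simp [add_comm]
    | succ n =>
      have c1 := (TH_SL (K := K) V x L).eq
      calc (TH V x + SL V L) * eo V (x :: L) (n + 1)
          = TH V x * eo V L (n + 1) + (TH V x * TH V x) * eo V L n
            + (SL V L * eo V L (n + 1) + (SL V L * TH V x) * eo V L n) := by
            rw [eo_cons]; noncomm_ring
        _ = TH V x * eo V L (n + 1) + (((n + 1 + 1 : ℕ) : K) • eo V L (n + 1 + 1)
            + TH V x * (((n + 1 : ℕ) : K) • eo V L (n + 1))) := by
            rw [TH_sq, zero_mul, add_zero, ih, ← c1, mul_assoc, ih]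
        _ = ((n + 1 + 1 : ℕ) : K) • eo V (x :: L) (n + 1 + 1) := by
            rw [eo_cons, mul_smul_comm, smul_add]
            push_cast
            module

theorem WL_vac (V : Finset ι) (L : List ι) : WL V L (vac : Z ι K) = 0 := by
  unfold WL
  induction L with
  | nil => simp
  | cons a L ih =>
    rw [List.map_cons, List.sum_cons, LinearMap.add_apply, ih, Module.End.mul_apply,
      Module.End.mul_apply, d_vac, map_zero, map_zero, add_zero]

/-- `(∑ θ_x f_x d_x) e_(n+1) 1 = (∑ f_x θ_x) e_n 1` -/
theorem WL_eo (V : Finset ι) {L : List ι} (hL : L.Nodup) (n : ℕ) :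
    WL V L (eo V L (n + 1) (vac : Z ι K)) = FL V L (eo V L n vac) := by
  induction L generalizing n with
  | nil => simp [WL, FL]
  | cons x L ih =>
    rw [List.nodup_cons] at hL
    obtain ⟨hx, hL⟩ := hL
    have hW : (WL V (x :: L) : Module.End K (Z ι K)) = TH V x * (f x * d x) + WL V L := by
      unfold WL
      rw [List.map_cons, List.sum_cons]
    have hF : (FL V (x :: L) : Module.End K (Z ι K)) = f x * TH V x + FL V L := by
      unfold FL
      rw [List.map_cons, List.sum_cons]
    have d0 : ∀ m : ℕ, d x (eo V L m (vac : Z ι K)) = 0 := fun m => by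
      rw [← Module.End.mul_apply, (d_eo V hx m).eq, Module.End.mul_apply, d_vac, map_zero]
    have d1 : ∀ m : ℕ, d x (TH V x (eo V L m (vac : Z ι K))) = eo V L m vac := fun m => by
      have h := LinearMap.congr_fun (d_TH_same (K := K) V x) (eo V L m (vac : Z ι K))
      rw [LinearMap.add_apply, Module.End.mul_apply, Module.End.mul_apply, d0, map_zero,
        add_zero, Module.End.one_apply] at h
      exact h
    have ft : ∀ u : Z ι K, f x (TH V x u) = TH V x (f x u) := fun u =>
      LinearMap.congr_fun (f_TH V x x).eq u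
    have tt : ∀ u : Z ι K, TH V x (TH V x u) = 0 := fun u =>
      LinearMap.congr_fun (TH_sq V x) u
    have wt : ∀ u : Z ι K, WL V L (TH V x u) = TH V x (WL V L u) := fun u =>
      (LinearMap.congr_fun (TH_WL V hx).eq u).symm
    have Ft : ∀ u : Z ι K, FL V L (TH V x u) = TH V x (FL V L u) := fun u =>
      (LinearMap.congr_fun (TH_FL V x L).eq u).symm
    rw [hW, hF, eo_cons]
    simp only [LinearMap.add_apply, Module.End.mul_apply, map_add, d0, d1, map_zero, zero_add,
      wt, ih hL]
    cases n with
    | zero =>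
      simp only [eo_zero, Module.End.one_apply, WL_vac, map_zero, add_zero, ft]
      abel
    | succ n =>
      rw [eo_cons]
      simp only [LinearMap.add_apply, Module.End.mul_apply, map_add, ft, tt, add_zero,
        Ft, ih hL]
      abel

/-! ### `Xi` on the elementary symmetric vectors -/

theorem FL_sq (V : Finset ι) (L : List ι) :
    (FL V L * FL V L : Module.End K (Z ι K)) = 0 := by
  unfold FL
  induction L with
  | nil => simp
  | cons a L ih =>
    rw [List.map_cons, List.sum_cons]
    refine sq_add_zero end_add_self ?_ ih ?_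
    · rw [mul_assoc, ← mul_assoc (TH V a), ← (f_TH V a a).eq, mul_assoc, TH_sq, mul_zero,
        mul_zero]
    · have c : ∀ M : List ι, Commute (f a * TH V a : Module.End K (Z ι K))
          (M.map fun x => f x * TH V x).sum := by
        intro M
        induction M with
        | nil => simp
        | cons y M ihM =>
          rw [List.map_cons, List.sum_cons]
          exact (((f_comm a y).mul_right (f_TH V a y)).mul_left
            (((f_TH V y a).symm).mul_right (TH_comm V a y))).add_right ihM
      exact (c L).eq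

/-- `Xi` in terms of a list enumerating `V` -/
theorem Xi_eq_list {V : Finset ι} {L : List ι} (hL : L.Nodup) (hV : L.toFinset = V) :
    (Xi V : Module.End K (Z ι K)) = SL V L + WL V L := by
  unfold Xi SL WL
  subst hV
  rw [List.sum_toFinset _ hL, ← List.sum_map_add]
  congr 1
  refine List.map_congr_left fun x _ => ?_
  rw [mul_add, mul_one]

/-- `Xi e_(n+1) 1 = (n+2) e_(n+2) 1 + (∑ f_x θ_x) e_n 1` -/
theorem Xi_eo {V : Finset ι} {L : List ι} (hL : L.Nodup) (hV : L.toFinset = V) (n : ℕ) :
    Xi V (eo V L (n + 1) (vac : Z ι K))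
      = ((n + 2 : ℕ) : K) • eo V L (n + 2) vac + FL V L (eo V L n vac) := by
  rw [Xi_eq_list hL hV, LinearMap.add_apply, WL_eo V hL, ← Module.End.mul_apply (SL V L), SL_eo,
    LinearMap.smul_apply]

theorem Xi_eo_zero {V : Finset ι} {L : List ι} (hL : L.Nodup) (hV : L.toFinset = V) :
    Xi V (vac : Z ι K) = eo V L 1 vac := by
  have h := SL_eo (K := K) V L 0
  rw [eo_zero, mul_one] at h
  rw [Xi_eq_list hL hV, LinearMap.add_apply, WL_vac, add_zero, h]
  simp

theorem Xi_FL (V : Finset ι) (L : List ι) :
    Commute (Xi V : Module.End K (Z ι K)) (FL V L) := by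
  have key : ∀ x ∈ V, ∀ y : ι,
      Commute (TH V x * (1 + f x * d x) : Module.End K (Z ι K)) (f y * TH V y) := by
    intro x _ y
    by_cases hxy : x = y
    · subst hxy
      have e1 : (TH V x * (1 + f x * d x)) * (f x * TH V x) = (0 : Module.End K (Z ι K)) := by
        have a1 : TH V x * (f x * TH V x) = (0 : Module.End K (Z ι K)) := by
          rw [← mul_assoc, ← (f_TH V x x).eq, mul_assoc, TH_sq, mul_zero]
        have a2 : (f x * d x) * (f x * TH V x) = (0 : Module.End K (Z ι K)) := by
          rw [mul_assoc, ← mul_assoc (d x), ← (f_d_comm x x).eq, mul_assoc, ← mul_assoc, f_sq,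
            zero_mul]
        rw [mul_assoc, add_mul, one_mul, a2, add_zero, a1]
      have e2 : (f x * TH V x) * (TH V x * (1 + f x * d x)) = (0 : Module.End K (Z ι K)) := by
        rw [mul_assoc, ← mul_assoc (TH V x), TH_sq, zero_mul, mul_zero]
      exact e1.trans e2.symm
    · exact ((f_TH V y x).symm.mul_right (TH_comm V x y)).mul_left
        ((Commute.one_left _).add_left (((f_comm x y).mul_right (f_TH V x y)).mul_left
          ((f_d_comm y x).symm.mul_right (d_TH_of_ne V hxy))))
  unfold Xi
  refine Commute.sum_left _ _ _ fun x hx => ?_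
  unfold FL
  induction L with
  | nil => simp
  | cons y L ih =>
    rw [List.map_cons, List.sum_cons]
    exact (key x hx y).add_right ih

/-- the certificate -/
theorem eo_odd_mem {V : Finset ι} {L : List ι} (hL : L.Nodup) (hV : L.toFinset = V) (b : ℕ) :
    ∃ y : Z ι K, eo V L (2 * b + 1) vac = Xi V y := by
  rcases b with _ | b
  · exact ⟨vac, (Xi_eo_zero hL hV).symm⟩
  · have h1 := Xi_eo (K := K) hL hV (2 * b + 1)
    have h2 : Xi V (eo V L (2 * b) (vac : Z ι K)) = eo V L (2 * b + 1) vac
        + (if b = 0 then 0 else FL V L (eo V L (2 * b - 1) vac)) := by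
      rcases b with _ | b
      · rw [Nat.mul_zero, eo_zero, Module.End.one_apply, Xi_eo_zero hL hV]
        simp
      · have := Xi_eo (K := K) hL hV (2 * b + 1)
        have e1 : ((2 * b + 1 + 2 : ℕ) : K) = 1 := by
          push_cast
          have := CharTwo.two_eq_zero (R := K)
          linear_combination (b + 1 : K) * this
        rw [e1, one_smul] at this
        rw [if_neg (Nat.succ_ne_zero b)]
        exact this
    have h3 : FL V L (Xi V (eo V L (2 * b) (vac : Z ι K))) = FL V L (eo V L (2 * b + 1) vac) := by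
      rw [h2, map_add]
      split_ifs with hb
      · rw [map_zero, add_zero]
      · rw [← Module.End.mul_apply (FL V L) (FL V L), FL_sq, LinearMap.zero_apply, add_zero]
    refine ⟨eo V L (2 * b + 2) vac + FL V L (eo V L (2 * b) vac), ?_⟩
    rw [map_add, ← Module.End.mul_apply (Xi V) (FL V L), (Xi_FL V L).eq, Module.End.mul_apply,
      h3, h1, add_assoc, Z_add_self, add_zero]
    have e1 : ((2 * b + 1 + 2 : ℕ) : K) = 1 := by
      push_cast
      have := CharTwo.two_eq_zero (R := K)
      linear_combination (b + 1 : K) * this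
    rw [e1, one_smul]
    rfl

/-! ### the sum over all increasing lists -/

theorem eo_perm (V : Finset ι) {L L' : List ι} (h : L.Perm L') (n : ℕ) :
    (eo V L n : Module.End K (Z ι K)) = eo V L' n := by
  induction h generalizing n with
  | nil => rfl
  | cons x _ ih =>
    cases n with
    | zero => rw [eo_zero, eo_zero]
    | succ n => rw [eo_cons, eo_cons, ih, ih]
  | swap x y L =>
    cases n with
    | zero => rw [eo_zero, eo_zero]
    | succ n =>
      rw [eo_cons, eo_cons]
      cases n with
      | zero => rw [eo_cons, eo_cons]; simp only [eo_zero, mul_one]; abel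
      | succ n =>
        rw [eo_cons, eo_cons, eo_cons, eo_cons, mul_add, mul_add, ← mul_assoc, ← mul_assoc,
          (TH_comm V x y).eq]
        abel
  | trans _ _ ih1 ih2 => rw [ih1, ih2]

theorem TH_insert {V : Finset ι} {x y : ι} (hx : ∀ z ∈ V, z < x) (hy : y ∈ V) :
    (TH (insert x V) y : Module.End K (Z ι K)) = TH V y + f x := by
  unfold TH
  have hyx := hx y hy
  have hxV : x ∉ V := fun h => lt_irrefl _ (hx x h)
  rw [Finset.filter_insert, if_pos hyx, Finset.filter_insert, if_neg (not_lt.mpr hyx.le),
    Finset.sum_insert (fun h => hxV (mem_filter.mp h).1)]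
  abel

theorem TH_insert_self {V : Finset ι} {x : ι} (hx : ∀ z ∈ V, z < x) :
    (TH (insert x V) x : Module.End K (Z ι K)) = th x + (V.card : K) • f x := by
  unfold TH
  have e1 : (insert x V).filter (fun y => x < y) = ∅ := by
    apply Finset.filter_eq_empty_iff.mpr
    intro y hy
    rcases mem_insert.mp hy with rfl | hy
    · exact lt_irrefl _
    · exact not_lt.mpr (hx y hy).le
  have e2 : (insert x V).filter (fun y => y < x) = V := by
    rw [Finset.filter_insert, if_neg (lt_irrefl x)]
    exact Finset.filter_true_of_mem hx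
  rw [e1, e2, Finset.sum_empty, add_zero]

theorem eo_insert {V : Finset ι} {x : ι} (hx : ∀ z ∈ V, z < x) {L : List ι}
    (hL : ∀ y ∈ L, y ∈ V) (n : ℕ) :
    (eo (insert x V) L (n + 1) : Module.End K (Z ι K))
      = eo V L (n + 1) + ((L.length + n : ℕ) : K) • (f x * eo V L n) := by
  induction L generalizing n with
  | nil =>
    rw [eo_nil_succ, eo_nil_succ, zero_add]
    cases n with
    | zero => simp
    | succ n => rw [eo_nil_succ, mul_zero, smul_zero]
  | cons y L ih =>
    have ih' := ih fun z hz => hL z (List.mem_cons_of_mem _ hz)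
    have hy := hL y List.mem_cons_self
    rw [eo_cons, ih', eo_cons, TH_insert hx hy]
    cases n with
    | zero =>
      rw [eo_zero, eo_zero, eo_zero, mul_one, mul_one, mul_one]
      simp only [List.length_cons]
      push_cast
      module
    | succ n =>
      rw [ih', eo_cons]
      have c1 : (f x : Module.End K (Z ι K)) * (f x * eo V L n) = 0 := by
        rw [← mul_assoc, f_sq, zero_mul]
      have c2 : (TH V y : Module.End K (Z ι K)) * (f x * eo V L n)
          = f x * (TH V y * eo V L n) := by
        rw [← mul_assoc, ← (f_TH V x y).eq, mul_assoc]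
      rw [add_mul, mul_add, mul_add, mul_smul_comm, mul_smul_comm, c1, c2, smul_zero, add_zero,
        mul_add]
      simp only [List.length_cons]
      have h2 := CharTwo.two_eq_zero (R := K)
      have h3 : (f x * (TH V y * eo V L n) : Module.End K (Z ι K))
          + f x * (TH V y * eo V L n) = 0 := end_add_self _
      have e1 : ((L.length + 1 + (n + 1) : ℕ) : K) • (f x * (TH V y * eo V L n) :
          Module.End K (Z ι K)) = ((L.length + n : ℕ) : K) • (f x * (TH V y * eo V L n)) := by
        congr 1
        push_cast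
        linear_combination h2
      rw [smul_add, e1]
      push_cast
      module

/-- sums over subsets of `insert x V` -/
theorem sum_powersetCard_insert {M : Type*} [AddCommMonoid M] {V : Finset ι} {x : ι}
    (hx : x ∉ V) (n : ℕ) (F : Finset ι → M) :
    ∑ Q ∈ (insert x V).powersetCard (n + 1), F Q
      = ∑ Q ∈ V.powersetCard (n + 1), F Q + ∑ Q ∈ V.powersetCard n, F (insert x Q) := by
  rw [Finset.powersetCard_succ_insert hx, Finset.sum_union, Finset.sum_image]
  · intro Q hQ Q' hQ' h
    have h1 : x ∉ Q := fun h => hx ((mem_powersetCard.mp hQ).1 h)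
    have h2 : x ∉ Q' := fun h => hx ((mem_powersetCard.mp hQ').1 h)
    rw [← erase_insert h1, ← erase_insert h2, h]
  · rw [Finset.disjoint_left]
    intro Q hQ hQ'
    obtain ⟨Q', _, rfl⟩ := mem_image.mp hQ'
    exact hx ((mem_powersetCard.mp hQ).1 (mem_insert_self _ _))

/-- `W` is a decreasing list of sites below `x` -/
def Below (x : ι) (W : List ι) : Prop := ∀ y ∈ W, y < x

/-- the recursion of the vectors `t`, `a` of the increasing chains; the head of the list is the
last site of the chain -/
structure ChainRec (t a : List ι → Z ι K) : Prop where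
  t_nil : t [] = vac
  a_nil : a [] = 0
  t_cons : ∀ (x : ι) (W : List ι), W.Pairwise (· > ·) → Below x W →
    t (x :: W) = th x (t W) + (W.length : K) • f x (t W) + f x (th x (a W))
  a_cons : ∀ (x : ι) (W : List ι), W.Pairwise (· > ·) → Below x W →
    a (x :: W) = t W + th x (a W) + ((W.length : K) + 1) • f x (a W)

theorem sort_ge_insert {Q : Finset ι} {x : ι} (hx : ∀ z ∈ Q, z < x) :
    (insert x Q).sort (· ≥ ·) = x :: Q.sort (· ≥ ·) :=
  Finset.sort_insert _ (fun b hb => (hx b hb).le) fun h => lt_irrefl _ (hx x h)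

theorem sort_ge_pairwise (Q : Finset ι) : (Q.sort (· ≥ ·)).Pairwise (· > ·) :=
  (Finset.sortedGT_sort Q).pairwise

theorem below_sort {Q : Finset ι} {x : ι} (hx : ∀ z ∈ Q, z < x) :
    Below x (Q.sort (· ≥ ·)) := fun y hy => hx y ((Finset.mem_sort _).mp hy)

/-- the elementary symmetric vectors of the twisted variables -/
def ev (V : Finset ι) (n : ℕ) : Z ι K := eo V (V.sort (· ≥ ·)) n vac

theorem ev_zero (V : Finset ι) : (ev V 0 : Z ι K) = vac := by
  unfold ev
  rw [eo_zero, Module.End.one_apply]

theorem ev_insert_one {V : Finset ι} {x : ι} (hx : ∀ z ∈ V, z < x) :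
    (ev (insert x V) 1 : Z ι K) = ev V 1 + th x vac := by
  unfold ev
  rw [sort_ge_insert hx, eo_cons, eo_insert hx (fun y hy => (Finset.mem_sort _).mp hy),
    TH_insert_self hx]
  simp only [eo_zero, mul_one, LinearMap.add_apply, LinearMap.smul_apply, Finset.length_sort,
    add_zero]
  have h := Z_add_self ((V.card : K) • f x (vac : Z ι K))
  calc _ = eo V (V.sort (· ≥ ·)) 1 vac + th x (vac : Z ι K)
        + ((V.card : K) • f x (vac : Z ι K) + (V.card : K) • f x (vac : Z ι K)) := by abel
    _ = _ := by rw [h, add_zero]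

theorem ev_insert_add_two {V : Finset ι} {x : ι} (hx : ∀ z ∈ V, z < x) (n : ℕ) :
    (ev (insert x V) (n + 2) : Z ι K) = ev V (n + 2) + th x (ev V (n + 1))
      + ((n + 1 : ℕ) : K) • f x (ev V (n + 1))
      + ((V.card + n : ℕ) : K) • f x (th x (ev V n)) := by
  unfold ev
  have hm : ∀ y ∈ V.sort (· ≥ ·), y ∈ V := fun y hy => (Finset.mem_sort _).mp hy
  rw [sort_ge_insert hx, eo_cons, eo_insert hx hm, eo_insert hx hm, TH_insert_self hx]
  simp only [LinearMap.add_apply, LinearMap.smul_apply, Finset.length_sort,
    Module.End.mul_apply, map_add, map_smul, smul_add]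
  generalize eo V (V.sort (· ≥ ·)) (n + 2) (vac : Z ι K) = A
  generalize eo V (V.sort (· ≥ ·)) (n + 1) (vac : Z ι K) = B
  generalize eo V (V.sort (· ≥ ·)) n (vac : Z ι K) = C
  have h1 : f x (f x C) = 0 := LinearMap.congr_fun (f_sq x) C
  have h2 : th x (f x C) = f x (th x C) := (LinearMap.congr_fun (f_th_comm x x).eq C).symm
  rw [h1, h2, smul_zero, smul_zero, add_zero]
  have h3 := Z_add_self ((V.card : K) • f x B)
  push_cast
  calc _ = A + th x B + ((n : K) + 1) • f x B + ((V.card : K) + n) • f x (th x C)
        + ((V.card : K) • f x B + (V.card : K) • f x B) := by module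
    _ = _ := by rw [h3, add_zero]

/-- the sum of all `t Q` and of all `a Q` -/
theorem sum_chain {t a : List ι → Z ι K} (hr : ChainRec t a) (V : Finset ι) :
    (∀ n, ∑ Q ∈ V.powersetCard n, t (Q.sort (· ≥ ·)) = ev V n) ∧
      ∀ n, ∑ Q ∈ V.powersetCard (n + 1), a (Q.sort (· ≥ ·))
        = ((V.card + n : ℕ) : K) • ev V n := by
  induction V using Finset.induction_on_max with
  | empty =>
    refine ⟨fun n => ?_, fun n => ?_⟩
    · cases n with
      | zero =>
        rw [powersetCard_zero, sum_singleton, sort_empty, hr.t_nil, ev_zero]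
      | succ n =>
        unfold ev
        rw [sort_empty, eo_nil_succ, LinearMap.zero_apply]
        rw [powersetCard_eq_empty.mpr (by simp), sum_empty]
    · rw [powersetCard_eq_empty.mpr (by simp), sum_empty]
      cases n with
      | zero => simp
      | succ n =>
        unfold ev
        rw [sort_empty, eo_nil_succ, LinearMap.zero_apply, smul_zero]
  | insert x V hx ih =>
    obtain ⟨ht, ha⟩ := ih
    have hxV : x ∉ V := fun h => lt_irrefl _ (hx x h)
    have a0 : ∑ Q ∈ V.powersetCard 0, a (Q.sort (· ≥ ·)) = 0 := by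
      rw [powersetCard_zero, sum_singleton, sort_empty, hr.a_nil]
    have st : ∀ n, ∑ Q ∈ (insert x V).powersetCard (n + 1), t (Q.sort (· ≥ ·))
        = ev V (n + 1) + (th x (ev V n) + (n : K) • f x (ev V n)
          + f x (th x (∑ Q ∈ V.powersetCard n, a (Q.sort (· ≥ ·))))) := by
      intro n
      rw [sum_powersetCard_insert hxV, ht]
      congr 1
      rw [← ht n, map_sum, map_sum, map_sum, map_sum, Finset.smul_sum, ← Finset.sum_add_distrib,
        ← Finset.sum_add_distrib]
      refine Finset.sum_congr rfl fun Q hQ => ?_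
      have hQV := (mem_powersetCard.mp hQ).1
      have hQx : ∀ z ∈ Q, z < x := fun z hz => hx z (hQV hz)
      rw [sort_ge_insert hQx, hr.t_cons x _ (sort_ge_pairwise Q) (below_sort hQx),
        Finset.length_sort, (mem_powersetCard.mp hQ).2]
    have sa : ∀ n, ∑ Q ∈ (insert x V).powersetCard (n + 1), a (Q.sort (· ≥ ·))
        = ((V.card + n : ℕ) : K) • ev V n + (ev V n
          + th x (∑ Q ∈ V.powersetCard n, a (Q.sort (· ≥ ·)))
          + ((n : K) + 1) • f x (∑ Q ∈ V.powersetCard n, a (Q.sort (· ≥ ·)))) := by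
      intro n
      rw [sum_powersetCard_insert hxV, ha]
      congr 1
      rw [← ht n, map_sum, map_sum, Finset.smul_sum, ← Finset.sum_add_distrib,
        ← Finset.sum_add_distrib]
      refine Finset.sum_congr rfl fun Q hQ => ?_
      have hQV := (mem_powersetCard.mp hQ).1
      have hQx : ∀ z ∈ Q, z < x := fun z hz => hx z (hQV hz)
      rw [sort_ge_insert hQx, hr.a_cons x _ (sort_ge_pairwise Q) (below_sort hQx),
        Finset.length_sort, (mem_powersetCard.mp hQ).2]
    refine ⟨fun n => ?_, fun n => ?_⟩
    · rcases n with _ | n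
      · rw [powersetCard_zero, sum_singleton, sort_empty, hr.t_nil, ev_zero]
      · rw [st]
        rcases n with _ | n
        · rw [a0, ev_insert_one hx, ev_zero]
          simp
        · rw [ha, ev_insert_add_two hx]
          simp only [map_smul]
          push_cast
          module
    · rw [sa]
      have h2 := CharTwo.two_eq_zero (R := K)
      rcases n with _ | n
      · rw [a0, ev_zero, ev_zero, card_insert_of_notMem hxV]
        simp only [map_zero, smul_zero, add_zero]
        push_cast
        module
      · rw [ha, card_insert_of_notMem hxV]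
        rcases n with _ | n
        · rw [ev_insert_one hx, ev_zero]
          simp only [map_smul]
          push_cast
          match_scalars
          · ring
          · linear_combination -h2
          · linear_combination (V.card : K) * h2
        · rw [ev_insert_add_two hx]
          have hm : ((V.card : K) + n) * ((V.card : K) + n + 1) = 0 := by
            have h3 := Nat.even_mul_succ_self (V.card + n)
            obtain ⟨k, hk⟩ := h3
            have h4 := congrArg (fun m : ℕ => (m : K)) hk
            push_cast at h4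
            rw [h4]
            exact CharTwo.add_self_eq_zero _
          simp only [map_smul]
          push_cast
          match_scalars
          · ring
          · linear_combination -h2
          · linear_combination (V.card : K) * h2
          · linear_combination -hm - ((V.card : K) + n) * h2

/-- homogeneous of degree `n`, supported on the sites of `V` -/
def Deg (V : Finset ι) (n : ℕ) (w : Z ι K) : Prop :=
  ∀ A B : Finset ι, ¬ (A ⊆ V ∧ B ⊆ V ∧ A.card + B.card = n) → w A B = 0

/-- the sum of all `a Q`, `|Q| = 2b+2`, for `|V|` even, is the elementary symmetric vector -/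
theorem sum_a_eq {t a : List ι → Z ι K} (hr : ChainRec t a) {V : Finset ι} (hV : Even V.card)
    (b : ℕ) : ∑ Q ∈ V.powersetCard (2 * b + 2), a (Q.sort (· ≥ ·)) = ev V (2 * b + 1) := by
  rw [(sum_chain hr V).2 (2 * b + 1)]
  obtain ⟨k, hk⟩ := hV
  have e1 : ((V.card + (2 * b + 1) : ℕ) : K) = 1 := by
    rw [hk]
    push_cast
    linear_combination ((k : K) + b) * CharTwo.two_eq_zero (R := K)
  rw [e1, one_smul]

/-- the certificate -/
theorem ev_odd_mem (V : Finset ι) (b : ℕ) : ∃ y : Z ι K, ev V (2 * b + 1) = Xi V y :=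
  eo_odd_mem (Finset.sort_nodup V _) (Finset.sort_toFinset V _) b

/-- **(Z2)**, first form: all transforms of the vacuum are orthogonal to everything which is
orthogonal to the image of `Xi` -/
theorem B0_Tl_ev {V : Finset ι} {l : List (ι × ι)} (hl : ∀ p ∈ l, p.1 ∈ V ∧ p.2 ∈ V) (b : ℕ)
    {z : Z ι K} (hz : ∀ u : Z ι K, B0 V (Xi V u) z = 0) : B0 V (Tl l (ev V (2 * b + 1))) z = 0 := by
  obtain ⟨y, hy⟩ := ev_odd_mem (K := K) V b
  rw [hy, ← Module.End.mul_apply, (Tl_Xi l hl).eq, Module.End.mul_apply]
  exact hz _

omit [CharP K 2] in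
theorem deg_vac (V : Finset ι) : Deg V 0 (vac : Z ι K) := by
  intro A B h
  unfold vac
  rw [if_neg]
  rintro ⟨rfl, rfl⟩
  exact h ⟨empty_subset _, empty_subset _, rfl⟩

omit [CharP K 2] in
theorem Deg.f {V : Finset ι} {n : ℕ} {w : Z ι K} (hw : Deg V n w) {x : ι} (hx : x ∈ V) :
    Deg V (n + 1) (f x w) := by
  intro A B h
  rw [f_apply]
  split_ifs with h1
  · apply hw
    rintro ⟨h2, h3, h4⟩
    refine h ⟨h2, fun y hy => ?_, ?_⟩
    · by_cases hyx : y = x
      · rwa [hyx]
      · exact h3 (mem_erase.mpr ⟨hyx, hy⟩)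
    · rw [card_erase_of_mem h1] at h4
      have := card_pos.mpr ⟨x, h1⟩
      omega
  · rfl

omit [CharP K 2] in
theorem Deg.th {V : Finset ι} {n : ℕ} {w : Z ι K} (hw : Deg V n w) {x : ι} (hx : x ∈ V) :
    Deg V (n + 1) (th x w) := by
  intro A B h
  rw [th_apply]
  split_ifs with h1
  · apply hw
    rintro ⟨h2, h3, h4⟩
    refine h ⟨fun y hy => ?_, h3, ?_⟩
    · by_cases hyx : y = x
      · rwa [hyx]
      · exact h2 (mem_erase.mpr ⟨hyx, hy⟩)
    · rw [card_erase_of_mem h1] at h4
      have := card_pos.mpr ⟨x, h1⟩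
      omega
  · rfl

omit [CharP K 2] in
theorem Deg.add {V : Finset ι} {n : ℕ} {w w' : Z ι K} (hw : Deg V n w) (hw' : Deg V n w') :
    Deg V n (w + w') := fun A B h => by
  rw [Pi.add_apply, Pi.add_apply, hw A B h, hw' A B h, add_zero]

omit [CharP K 2] in
theorem Deg.zero (V : Finset ι) (n : ℕ) : Deg V n (0 : Z ι K) := fun _ _ _ => rfl

omit [CharP K 2] in
theorem Deg.smul {V : Finset ι} {n : ℕ} {w : Z ι K} (hw : Deg V n w) (c : K) :
    Deg V n (c • w) := fun A B h => by
  rw [Pi.smul_apply, Pi.smul_apply, hw A B h, smul_zero]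

omit [CharP K 2] in
theorem Deg.sum {α : Type*} {V : Finset ι} {n : ℕ} (s : Finset α) {w : α → Z ι K}
    (h : ∀ a ∈ s, Deg V n (w a)) : Deg V n (∑ a ∈ s, w a) := by
  intro A B hp
  rw [Finset.sum_apply, Finset.sum_apply]
  exact Finset.sum_eq_zero fun a ha => h a ha A B hp

omit [CharP K 2] in
theorem Deg.TH {V : Finset ι} {n : ℕ} {w : Z ι K} (hw : Deg V n w) {x : ι} (hx : x ∈ V) :
    Deg V (n + 1) (TH V x w) := by
  unfold D81877ZF.TH
  rw [LinearMap.add_apply, LinearMap.add_apply, LinearMap.sum_apply, LinearMap.smul_apply]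
  exact ((hw.th hx).add (Deg.sum _ fun y hy => hw.f (mem_filter.mp hy).1)).add
    ((hw.f hx).smul _)

theorem deg_eo {V : Finset ι} {L : List ι} (hL : ∀ x ∈ L, x ∈ V) (n : ℕ) :
    Deg V n (eo V L n (vac : Z ι K)) := by
  induction L generalizing n with
  | nil =>
    cases n with
    | zero => exact deg_vac V
    | succ n => rw [eo_nil_succ]; exact Deg.zero _ _
  | cons x L ih =>
    cases n with
    | zero => rw [eo_zero]; exact deg_vac V
    | succ n =>
      rw [eo_cons, LinearMap.add_apply, Module.End.mul_apply]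
      have ih' := ih fun y hy => hL y (List.mem_cons_of_mem _ hy)
      exact (ih' _).add ((ih' _).TH (hL x List.mem_cons_self))

/-- the degree of the elementary symmetric vectors -/
theorem deg_ev (V : Finset ι) (n : ℕ) : Deg V n (ev V n : Z ι K) :=
  deg_eo (fun _ hx => (Finset.mem_sort _).mp hx) n

theorem ev_odd (V : Finset ι) (b : ℕ) : OddIn V (ev V (2 * b + 1) : Z ι K) :=
  fun A B h => deg_ev V (2 * b + 1) A B fun h' => h ⟨h'.1, h'.2.1, h'.2.2 ▸ ⟨b, rfl⟩⟩

/-- **(Z2)** -/
theorem Z2 {V : Finset ι} {l : List (ι × ι)} (hl : ∀ p ∈ l, p.1 ∈ V ∧ p.2 ∈ V) (b : ℕ)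
    {w z : Z ι K} (hw : OddIn V w) (hDw : D V w = D V (Tl l (ev V (2 * b + 1))))
    (hD : D V z = 0) (hz : ∀ u : Z ι K, B0 V (Xi V u) z = 0) : B0 V w z = 0 := by
  set t : Z ι K := Tl l (ev V (2 * b + 1)) with ht
  have h0 : OddIn V t := (ev_odd V b).list l hl
  have h1 : OddIn V (w + t) := hw.add h0
  have h2 : D V (w + t) = 0 := by
    rw [map_add, hDw]
    exact Z_add_self _
  have h3 := exists_of_D_eq_zero h1 h2
  have h4 : B0 V (w + t) z = 0 := by
    rw [← h3, B0_D, hD, B0_zero_right]
  rw [B0_add_left, ht, B0_Tl_ev hl b hz, add_zero] at h4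
  exact h4

/-- **(Z2)** with the hypotheses `e z = 0`, `ez z = 0` -/
theorem Z2' {V : Finset ι} {l : List (ι × ι)} (hl : ∀ p ∈ l, p.1 ∈ V ∧ p.2 ∈ V) (b : ℕ)
    {w z : Z ι K} (hw : OddIn V w) (hDw : D V w = D V (Tl l (ev V (2 * b + 1))))
    (hD : D V z = 0) (he : e V z = 0) (hez : ez V z = 0) : B0 V w z = 0 :=
  Z2 hl b hw hDw hD fun u => by rw [B0_Xi, he, hez, add_zero, B0_zero_right]

end CharTwo

end D81877ZF
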